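import Mathlib

/-!
Preparations on the Boolean cube: balanced up-sets, the majority up-set, perfect matchings.
-/

namespace Pool.Agent.V11127.CubeA

open Finset

/-- average distance of the majority fibre -/
noncomputable def eh (h : ℕ) : ℝ := (((h + 1) * (2 * h + 1).choose (h + 1) : ℕ) : ℝ) / 4 ^ h

lemma eh_zero : eh 0 = 1 := by simp [eh]

lemma choose_step (h : ℕ) :
    (h + 2) * (2 * (h + 1) + 1).choose (h + 1 + 1) =
      2 * (2 * h + 3) * (2 * h + 1).choose (h + 1) := by
  have h1 := Nat.add_one_mul_choose_eq (2 * h + 2) (h + 1)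
  have h2 : (2 * h + 2).choose (h + 1) = (2 * h + 1).choose h + (2 * h + 1).choose (h + 1) :=
    Nat.choose_succ_succ _ _
  have h3 : (2 * h + 1).choose h = (2 * h + 1).choose (h + 1) := by
    rw [← Nat.choose_symm_of_eq_add]
    omega
  rw [h3] at h2
  have h4 : (2 * (h + 1) + 1).choose (h + 1 + 1) = (Nat.succ (2 * h + 2)).choose (Nat.succ (h + 1)) := by
    congr 1
  rw [h4]
  rw [h2] at h1
  simp only [Nat.succ_eq_add_one] at h1 ⊢
  nlinarith [h1]

lemma eh_succ (h : ℕ) : eh (h + 1) = eh h * ((2 * h + 3) / (2 * h + 2)) := by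
  unfold eh
  have h1 := choose_step h
  have h2 : (((h + 1 + 1) * (2 * (h + 1) + 1).choose (h + 1 + 1) : ℕ) : ℝ) =
      2 * (2 * h + 3) * ((2 * h + 1).choose (h + 1) : ℝ) := by
    rw [show h + 1 + 1 = h + 2 by ring] at *
    rw [h1]
    push_cast
    ring
  rw [h2]
  push_cast
  have h3 : (h : ℝ) + 1 ≠ 0 := by positivity
  have h4 : (2 * (h : ℝ) + 2) ≠ 0 := by positivity
  field_simp
  ring

lemma eh_pos (h : ℕ) : 0 < eh h := by
  unfold eh
  have : 0 < (2 * h + 1).choose (h + 1) := Nat.choose_pos (by omega)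
  positivity

lemma eh_sq (h : ℕ) : (h : ℝ) + 1 ≤ eh h ^ 2 := by
  induction h with
  | zero => simp [eh_zero]
  | succ h ih =>
    rw [eh_succ, mul_pow, div_pow]
    have h4 : (0 : ℝ) < (2 * (h : ℝ) + 2) ^ 2 := by positivity
    rw [← mul_div_assoc, le_div_iff₀ h4]
    push_cast
    have h5 : (0 : ℝ) ≤ (2 * (h : ℝ) + 3) ^ 2 := by positivity
    nlinarith [mul_le_mul_of_nonneg_right ih h5]

lemma eh_succ_le (h : ℕ) : eh (h + 1) ≤ 2 * eh h := by
  rw [eh_succ, mul_comm]
  refine mul_le_mul_of_nonneg_right ?_ (eh_pos h).le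
  rw [div_le_iff₀ (by positivity)]
  nlinarith [(Nat.cast_nonneg h : (0 : ℝ) ≤ h)]

lemma exists_eh {τ : ℝ} (hτ : 1 ≤ τ) : ∃ h, τ ≤ eh h ∧ eh h ≤ 2 * τ := by
  classical
  have hex : ∃ h, τ ≤ eh h := by
    obtain ⟨n, hn⟩ := exists_nat_ge (τ ^ 2)
    refine ⟨n, ?_⟩
    have h1 := eh_sq n
    have h2 := eh_pos n
    nlinarith
  refine ⟨Nat.find hex, Nat.find_spec hex, ?_⟩
  have hmin := fun m => Nat.find_min (H := hex) (m := m)
  generalize Nat.find hex = n at hmin
  rcases n with _ | n
  · rw [eh_zero]
    linarith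
  · have h1 := hmin n (Nat.lt_succ_self n)
    push Not at h1
    have := eh_succ_le n
    linarith

lemma sum_card_fn (n : ℕ) (g : ℕ → ℝ) :
    ∑ w : Finset (Fin n), g w.card = ∑ k ∈ range (n + 1), (n.choose k : ℝ) * g k := by
  have h := Finset.sum_powerset_apply_card g (x := (univ : Finset (Fin n)))
  rw [Finset.powerset_univ, Finset.card_univ, Fintype.card_fin] at h
  rw [h]
  refine sum_congr rfl fun k _ => ?_
  rw [nsmul_eq_mul]

/-- the lower family: `true` is the majority family, `false` the dictator family -/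
def Low (h : ℕ) (b : Bool) (w : Finset (Fin (2 * h + 1))) : Prop :=
  if b then w.card ≤ h else (0 : Fin (2 * h + 1)) ∉ w

instance (h : ℕ) (b : Bool) : DecidablePred (Low h b) := fun w => by
  unfold Low
  infer_instance

lemma Low_anti {h : ℕ} {b : Bool} {v w : Finset (Fin (2 * h + 1))} (hvw : v ⊆ w)
    (hw : Low h b w) : Low h b v := by
  cases b
  · simp only [Low] at hw ⊢
    exact fun h0 => hw (hvw h0)
  · simp only [Low, if_true] at hw ⊢
    exact (card_le_card hvw).trans hw

lemma card_low (h : ℕ) (b : Bool) : (univ.filter (Low h b)).card = 4 ^ h := by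
  cases b
  · have h1 : univ.filter (Low h false) = (univ.erase (0 : Fin (2 * h + 1))).powerset := by
      ext w
      simp only [mem_filter, mem_univ, true_and, mem_powerset, Low]
      constructor
      · intro h0 i hi
        refine mem_erase.2 ⟨?_, mem_univ _⟩
        rintro rfl
        exact h0 hi
      · intro h0 h1
        exact absurd (h0 h1) (by simp)
    rw [h1, card_powerset, card_erase_of_mem (mem_univ _), card_univ, Fintype.card_fin,
      Nat.add_sub_cancel, pow_mul]
    norm_num
  · have h1 := sum_card_fn (2 * h + 1) (fun k => if k ≤ h then 1 else 0)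
    have h2 : (∑ w : Finset (Fin (2 * h + 1)), if w.card ≤ h then (1 : ℝ) else 0) =
        ((univ.filter (Low h true)).card : ℝ) := by
      rw [card_filter]
      push_cast
      refine sum_congr rfl fun w _ => ?_
      simp [Low]
    rw [h2] at h1
    have h3 : ∑ k ∈ range (2 * h + 1 + 1), ((2 * h + 1).choose k : ℝ) * (if k ≤ h then 1 else 0) =
        ∑ k ∈ range (h + 1), ((2 * h + 1).choose k : ℝ) := by
      simp only [mul_ite, mul_one, mul_zero]
      rw [← sum_filter]
      refine sum_congr ?_ fun _ _ => rfl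
      ext k
      simp only [mem_filter, mem_range]
      omega
    rw [h3] at h1
    have h4 := Nat.sum_range_choose_halfway h
    have h5 : ((∑ k ∈ range (h + 1), (2 * h + 1).choose k : ℕ) : ℝ) = ((4 ^ h : ℕ) : ℝ) := by
      rw [h4]
    push_cast at h5
    rw [h5] at h1
    exact_mod_cast h1

lemma card_high (h : ℕ) (b : Bool) : (univ.filter fun w => ¬ Low h b w).card = 4 ^ h := by
  have h1 := card_filter_add_card_filter_not (s := (univ : Finset (Finset (Fin (2 * h + 1))))) (Low h b)
  rw [card_low, card_univ, Fintype.card_finset, Fintype.card_fin, pow_succ, pow_mul] at h1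
  norm_num at h1
  omega

/-- Perfect matchings upwards. -/
lemma exists_match (h : ℕ) (b : Bool) : ∃ ψ : Finset (Fin (2 * h + 1)) → Finset (Fin (2 * h + 1)),
    (∀ w, Low h b w → ¬ Low h b (ψ w)) ∧ (∀ w, Low h b w → w ⊂ ψ w) ∧
    ∀ v w, Low h b v → Low h b w → ψ v = ψ w → v = w := by
  classical
  let t : {w // Low h b w} → Finset (Finset (Fin (2 * h + 1))) := fun w =>
    univ.filter fun v => ¬ Low h b v ∧ w.1 ⊆ v
  have hall : ∀ s : Finset {w // Low h b w}, s.card ≤ (s.biUnion t).card := by
    intro s
    let V : Finset (Finset (Fin (2 * h + 1))) := univ.filter fun v => ∃ w ∈ s, w.1 ⊆ v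
    let U : Finset (Finset (Fin (2 * h + 1))) := univ.filter fun v => ¬ Low h b v
    have hV : IsUpperSet (V : Set (Finset (Fin (2 * h + 1)))) := by
      intro x y hxy hx
      simp only [V, coe_filter, mem_univ, true_and, Set.mem_ofPred_eq] at hx ⊢
      obtain ⟨w, hw, hwx⟩ := hx
      exact ⟨w, hw, hwx.trans hxy⟩
    have hU : IsUpperSet (U : Set (Finset (Fin (2 * h + 1)))) := by
      intro x y hxy hx
      simp only [U, coe_filter, mem_univ, true_and, Set.mem_ofPred_eq] at hx ⊢
      exact fun hy => hx (Low_anti hxy hy)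
    have h1 := hV.le_card_inter_finset hU
    have h2 : U.card = 4 ^ h := card_high h b
    rw [h2, Fintype.card_fin, pow_succ, pow_mul] at h1
    norm_num at h1
    have h4 : (0 : ℕ) < 4 ^ h := by positivity
    have h5 : V.card ≤ 2 * (V ∩ U).card := by
      have : V.card * 4 ^ h ≤ (2 * (V ∩ U).card) * 4 ^ h := by
        calc V.card * 4 ^ h ≤ 4 ^ h * 2 * (V ∩ U).card := h1
          _ = _ := by ring
      exact Nat.le_of_mul_le_mul_right this h4
    have h6 : s.biUnion t = V ∩ U := by
      ext v
      simp only [mem_biUnion, t, V, U, mem_filter, mem_univ, true_and, mem_inter]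
      constructor
      · rintro ⟨w, hw, h7, h8⟩
        exact ⟨⟨w, hw, h8⟩, h7⟩
      · rintro ⟨⟨w, hw, h8⟩, h7⟩
        exact ⟨w, hw, h7, h8⟩
    have h7 : s.card ≤ (V \ U).card := by
      rw [← card_map (Function.Embedding.subtype _)]
      apply card_le_card
      intro w hw
      simp only [mem_map, Function.Embedding.coe_subtype] at hw
      obtain ⟨w', hw', rfl⟩ := hw
      simp only [mem_sdiff, V, U, mem_filter, mem_univ, true_and, not_not]
      exact ⟨⟨w', hw', Subset.refl _⟩, w'.2⟩
    have h8 := card_sdiff_add_card_inter V U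
    rw [h6]
    omega
  obtain ⟨f, hf1, hf2⟩ := (Finset.all_card_le_biUnion_card_iff_exists_injective t).1 hall
  refine ⟨fun w => if hw : Low h b w then f ⟨w, hw⟩ else w, ?_, ?_, ?_⟩
  · intro w hw
    simp only [dif_pos hw]
    have := hf2 ⟨w, hw⟩
    simp only [t, mem_filter, mem_univ, true_and] at this
    exact this.1
  · intro w hw
    simp only [dif_pos hw]
    have := hf2 ⟨w, hw⟩
    simp only [t, mem_filter, mem_univ, true_and] at this
    refine (ssubset_iff_subset_ne).2 ⟨this.2, ?_⟩
    intro h9
    rw [← h9] at this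
    exact this.1 hw
  · intro v w hv hw h9
    simp only [dif_pos hv, dif_pos hw] at h9
    exact congrArg Subtype.val (hf1 h9)

/-- The total distance of a fibre. -/
noncomputable def Wt (h : ℕ) (b : Bool) : ℝ := if b then 4 ^ h * eh h else 4 ^ h

lemma low_sum (h : ℕ) : ∀ n : ℕ, n ≤ 2 * h + 1 →
    ∑ k ∈ range (n + 1), ((2 * h + 1).choose k : ℝ) * ((2 * h + 1 : ℝ) - 2 * k) =
      (n + 1) * ((2 * h + 1).choose (n + 1) : ℝ) := by
  intro n
  induction n with
  | zero =>
    intro _
    simp
  | succ n ih =>
    intro hn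
    rw [sum_range_succ, ih (by omega)]
    have h1 := Nat.choose_succ_right_eq (2 * h + 1) (n + 1)
    have h2 : (((2 * h + 1).choose (n + 1 + 1) * (n + 1 + 1) : ℕ) : ℝ) =
        (((2 * h + 1).choose (n + 1) * (2 * h + 1 - (n + 1)) : ℕ) : ℝ) := by rw [h1]
    rw [Nat.cast_mul, Nat.cast_mul, Nat.cast_sub (by omega)] at h2
    push_cast at h2 ⊢
    linarith

lemma dist_sum (h : ℕ) (b : Bool) :
    ∑ w ∈ univ.filter (fun w => ¬ Low h b w), (w.card : ℝ) -
      ∑ w ∈ univ.filter (fun w => Low h b w), (w.card : ℝ) = Wt h b := by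
  classical
  cases b
  · have h1 : ∑ w ∈ univ.filter (fun w => ¬ Low h false w), (w.card : ℝ) =
        ∑ w ∈ univ.filter (fun w => Low h false w), ((w.card : ℝ) + 1) := by
      symm
      refine sum_bij' (fun w _ => insert 0 w) (fun w _ => w.erase 0) ?_ ?_ ?_ ?_ ?_
      · intro w hw
        simp only [mem_filter, mem_univ, true_and, Low] at hw ⊢
        simp
      · intro w hw
        simp only [mem_filter, mem_univ, true_and, Low] at hw ⊢
        simp
      · intro w hw
        simp only [mem_filter, mem_univ, true_and, Low] at hw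
        exact erase_insert hw
      · intro w hw
        simp only [mem_filter, mem_univ, true_and, Low] at hw
        exact insert_erase (by simpa using hw)
      · intro w hw
        simp only [mem_filter, mem_univ, true_and, Low] at hw
        rw [card_insert_of_notMem hw]
        push_cast
        ring
    rw [h1, sum_add_distrib, add_sub_cancel_left, sum_const, card_low]
    simp [Wt]
  · have h1 : ∑ w ∈ univ.filter (fun w => ¬ Low h true w), (w.card : ℝ) =
        ∑ w ∈ univ.filter (fun w => Low h true w), ((2 * h + 1 : ℝ) - w.card) := by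
      refine sum_bij' (fun w _ => wᶜ) (fun w _ => wᶜ) ?_ ?_ ?_ ?_ ?_
      · intro w hw
        simp only [mem_filter, mem_univ, true_and, Low, if_true, not_le] at hw ⊢
        rw [card_compl, Fintype.card_fin]
        omega
      · intro w hw
        simp only [mem_filter, mem_univ, true_and, Low, if_true, not_le] at hw ⊢
        rw [card_compl, Fintype.card_fin]
        omega
      · intro w _
        exact compl_compl w
      · intro w _
        exact compl_compl w
      · intro w _
        have h2 : wᶜ.card + w.card = 2 * h + 1 := by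
          rw [card_compl, Fintype.card_fin]
          have := card_le_univ w
          rw [Fintype.card_fin] at this
          omega
        have h3 : ((wᶜ.card + w.card : ℕ) : ℝ) = ((2 * h + 1 : ℕ) : ℝ) := by rw [h2]
        push_cast at h3
        linarith
    rw [h1, ← sum_sub_distrib]
    have h2 := sum_card_fn (2 * h + 1)
      (fun k => if k ≤ h then ((2 * h + 1 : ℝ) - 2 * k) else 0)
    have h3 : ∑ w : Finset (Fin (2 * h + 1)),
        (if w.card ≤ h then ((2 * h + 1 : ℝ) - 2 * w.card) else 0) =
        ∑ w ∈ univ.filter (fun w => Low h true w), ((2 * h + 1 : ℝ) - w.card - w.card) := by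
      rw [sum_filter]
      refine sum_congr rfl fun w _ => ?_
      simp only [Low, if_true]
      split_ifs
      · ring
      · rfl
    rw [← h3, h2]
    have h4 : ∑ k ∈ range (2 * h + 1 + 1), ((2 * h + 1).choose k : ℝ) *
        (if k ≤ h then ((2 * h + 1 : ℝ) - 2 * k) else 0) =
        ∑ k ∈ range (h + 1), ((2 * h + 1).choose k : ℝ) * ((2 * h + 1 : ℝ) - 2 * k) := by
      simp only [mul_ite, mul_zero]
      rw [← sum_filter]
      refine sum_congr ?_ fun _ _ => rfl
      ext k
      simp only [mem_filter, mem_range]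
      omega
    rw [h4, low_sum h h (by omega)]
    simp only [Wt, if_true, eh]
    have h5 : (4 : ℝ) ^ h ≠ 0 := by positivity
    field_simp
    push_cast
    ring

end Pool.Agent.V11127.CubeA
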