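import Pool.Agent.V11127.CubeA

/-!
Splitting the coordinates of the cube in two groups; the special set `SS`.
-/

namespace Pool.Agent.V11127.CubeA

open Finset

section split

variable {s M : ℕ}

/-- first group of coordinates -/
def Lx (x : Finset (Fin (s + M))) : Finset (Fin s) := univ.filter fun i => Fin.castAdd M i ∈ x

/-- second group of coordinates -/
def Rx (x : Finset (Fin (s + M))) : Finset (Fin M) := univ.filter fun i => Fin.natAdd s i ∈ x

/-- put together -/
def mk (z : Finset (Fin s)) (w : Finset (Fin M)) : Finset (Fin (s + M)) :=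
  z.image (Fin.castAdd M) ∪ w.image (Fin.natAdd s)

lemma mem_Lx {x : Finset (Fin (s + M))} {i : Fin s} : i ∈ Lx x ↔ Fin.castAdd M i ∈ x := by
  simp [Lx]

lemma mem_Rx {x : Finset (Fin (s + M))} {i : Fin M} : i ∈ Rx x ↔ Fin.natAdd s i ∈ x := by
  simp [Rx]

lemma cast_ne_nat (i : Fin s) (j : Fin M) : Fin.castAdd M i ≠ Fin.natAdd s j := by
  intro h
  have := congrArg Fin.val h
  simp only [Fin.val_castAdd, Fin.val_natAdd] at this
  have := i.2
  omega

lemma Lx_mk (z : Finset (Fin s)) (w : Finset (Fin M)) : Lx (mk z w) = z := by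
  ext i
  rw [mem_Lx, mk, mem_union, mem_image, mem_image]
  constructor
  · rintro (⟨j, hj, h⟩ | ⟨j, hj, h⟩)
    · have := Fin.castAdd_injective s M h
      rwa [this] at hj
    · exact absurd h.symm (cast_ne_nat i j)
  · intro h
    exact Or.inl ⟨i, h, rfl⟩

lemma Rx_mk (z : Finset (Fin s)) (w : Finset (Fin M)) : Rx (mk z w) = w := by
  ext i
  rw [mem_Rx, mk, mem_union, mem_image, mem_image]
  constructor
  · rintro (⟨j, hj, h⟩ | ⟨j, hj, h⟩)
    · exact absurd h (cast_ne_nat j i)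
    · have := Fin.natAdd_injective M s h
      rwa [this] at hj
  · intro h
    exact Or.inr ⟨i, h, rfl⟩

lemma subset_iff' {x y : Finset (Fin (s + M))} : x ⊆ y ↔ Lx x ⊆ Lx y ∧ Rx x ⊆ Rx y := by
  constructor
  · intro h
    exact ⟨fun i hi => mem_Lx.2 (h (mem_Lx.1 hi)), fun i hi => mem_Rx.2 (h (mem_Rx.1 hi))⟩
  · rintro ⟨h1, h2⟩ i hi
    refine Fin.addCases (motive := fun i => i ∈ x → i ∈ y) ?_ ?_ i hi
    · intro j hj
      exact mem_Lx.1 (h1 (mem_Lx.2 hj))
    · intro j hj
      exact mem_Rx.1 (h2 (mem_Rx.2 hj))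

lemma ext' {x y : Finset (Fin (s + M))} (h1 : Lx x = Lx y) (h2 : Rx x = Rx y) : x = y :=
  Subset.antisymm (subset_iff'.2 ⟨h1.subset, h2.subset⟩)
    (subset_iff'.2 ⟨h1.symm.subset, h2.symm.subset⟩)

lemma mk_Lx_Rx (x : Finset (Fin (s + M))) : mk (Lx x) (Rx x) = x :=
  ext' (Lx_mk _ _) (Rx_mk _ _)

lemma card_eq (x : Finset (Fin (s + M))) : x.card = (Lx x).card + (Rx x).card := by
  have h : x.card = ∑ i : Fin (s + M), if i ∈ x then 1 else 0 := by
    rw [← card_filter]
    simp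
  rw [h, Fin.sum_univ_add, Lx, Rx, card_filter, card_filter]

/-- the equivalence -/
def EE (s M : ℕ) : Finset (Fin (s + M)) ≃ Finset (Fin s) × Finset (Fin M) where
  toFun x := (Lx x, Rx x)
  invFun p := mk p.1 p.2
  left_inv := mk_Lx_Rx
  right_inv p := by simp [Lx_mk, Rx_mk]

lemma sumE (P : Finset (Fin s) → Prop) [DecidablePred P] (p : Finset (Fin M) → Prop)
    [DecidablePred p] (g : Finset (Fin s) → Finset (Fin M) → ℝ) :
    ∑ x ∈ univ.filter (fun x : Finset (Fin (s + M)) => P (Lx x) ∧ p (Rx x)), g (Lx x) (Rx x) =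
      ∑ z ∈ univ.filter P, ∑ w ∈ univ.filter p, g z w := by
  rw [sum_filter]
  have h := Equiv.sum_comp (EE s M) (fun q => if P q.1 ∧ p q.2 then g q.1 q.2 else 0)
  have h2 : ∑ x : Finset (Fin (s + M)), (if P (Lx x) ∧ p (Rx x) then g (Lx x) (Rx x) else 0) =
      ∑ q : Finset (Fin s) × Finset (Fin M), if P q.1 ∧ p q.2 then g q.1 q.2 else 0 := h
  rw [h2, Fintype.sum_prod_type, sum_filter]
  refine sum_congr rfl fun z _ => ?_
  by_cases hz : P z
  · simp only [hz, true_and, if_true]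
    rw [← sum_filter]
  · simp [hz]

end split

/-- the singletons `z` with `0 ∈ z` iff `b` -/
def Zb (t : ℕ) (b : Bool) (z : Finset (Fin (t + 1))) : Prop := z.card = 1 ∧ decide (0 ∈ z) = b

instance (t : ℕ) (b : Bool) : DecidablePred (Zb t b) := fun z => by
  unfold Zb
  infer_instance

/-- number of singletons of each kind -/
def nb (t : ℕ) (b : Bool) : ℕ := if b then 1 else t

lemma card_Zb (t : ℕ) (b : Bool) : (univ.filter (Zb t b)).card = nb t b := by
  cases b
  · have h : univ.filter (Zb t false) =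
        (univ.erase (0 : Fin (t + 1))).image (fun j => ({j} : Finset (Fin (t + 1)))) := by
      ext z
      simp only [mem_filter, mem_univ, true_and, Zb, mem_image, mem_erase, and_true,
        decide_eq_false_iff_not]
      constructor
      · rintro ⟨h1, h2⟩
        obtain ⟨j, rfl⟩ := card_eq_one.1 h1
        refine ⟨j, ?_, rfl⟩
        rintro rfl
        exact h2 (mem_singleton_self _)
      · rintro ⟨j, h1, rfl⟩
        refine ⟨card_singleton _, ?_⟩
        rw [mem_singleton]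
        exact fun h => h1 h.symm
    rw [h, card_image_of_injective _ (fun a b h => singleton_injective h),
      card_erase_of_mem (mem_univ _), card_univ, Fintype.card_fin]
    simp [nb]
  · have h : univ.filter (Zb t true) = {{(0 : Fin (t + 1))}} := by
      ext z
      simp only [mem_filter, mem_univ, true_and, Zb, mem_singleton, decide_eq_true_eq]
      constructor
      · rintro ⟨h1, h2⟩
        obtain ⟨j, rfl⟩ := card_eq_one.1 h1
        rw [mem_singleton.1 h2]
      · rintro rfl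
        exact ⟨card_singleton _, mem_singleton_self _⟩
    rw [h]
    simp [nb]

/-- the dimension -/
abbrev dm (t h : ℕ) : ℕ := (t + 1) + (2 * h + 1)

/-- the lower half of the fibres of kind `b` -/
def A0 (t h : ℕ) (b : Bool) : Finset (Finset (Fin (dm t h))) :=
  univ.filter fun x => Zb t b (Lx x) ∧ Low h b (Rx x)

/-- the upper half of the fibres of kind `b` -/
def B0 (t h : ℕ) (b : Bool) : Finset (Finset (Fin (dm t h))) :=
  univ.filter fun x => Zb t b (Lx x) ∧ ¬ Low h b (Rx x)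

/-- the region above the fibres -/
def R2 (t h : ℕ) : Finset (Finset (Fin (dm t h))) := univ.filter fun x => 2 ≤ (Lx x).card

/-- the set -/
def SS (t h : ℕ) : Finset (Finset (Fin (dm t h))) := R2 t h ∪ (A0 t h true ∪ A0 t h false)

lemma card_A0 (t h : ℕ) (b : Bool) : (A0 t h b).card = nb t b * 4 ^ h := by
  have h1 := sumE (s := t + 1) (M := 2 * h + 1) (Zb t b) (Low h b) (fun _ _ => 1)
  rw [sum_const, sum_const, sum_const, card_Zb, card_low] at h1
  simp only [nsmul_eq_mul, mul_one] at h1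
  exact_mod_cast h1

lemma card_B0 (t h : ℕ) (b : Bool) : (B0 t h b).card = nb t b * 4 ^ h := by
  have h1 := sumE (s := t + 1) (M := 2 * h + 1) (Zb t b) (fun w => ¬ Low h b w) (fun _ _ => 1)
  rw [sum_const, sum_const, sum_const, card_Zb, card_high] at h1
  simp only [nsmul_eq_mul, mul_one] at h1
  exact_mod_cast h1

lemma sum_diff (t h : ℕ) (b : Bool) :
    ∑ x ∈ B0 t h b, (x.card : ℝ) - ∑ x ∈ A0 t h b, (x.card : ℝ) = nb t b * Wt h b := by
  have key : ∀ (p : Finset (Fin (2 * h + 1)) → Prop) [DecidablePred p],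
      ∑ x ∈ univ.filter (fun x : Finset (Fin (dm t h)) => Zb t b (Lx x) ∧ p (Rx x)), (x.card : ℝ) =
      nb t b * ∑ w ∈ univ.filter p, ((1 : ℝ) + w.card) := by
    intro p _
    have h1 := sumE (s := t + 1) (M := 2 * h + 1) (Zb t b) p
      (fun z w => ((z.card + w.card : ℕ) : ℝ))
    have h2 : ∑ x ∈ univ.filter (fun x : Finset (Fin (dm t h)) => Zb t b (Lx x) ∧ p (Rx x)),
        (x.card : ℝ) =
        ∑ x ∈ univ.filter (fun x : Finset (Fin (dm t h)) => Zb t b (Lx x) ∧ p (Rx x)),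
          (((Lx x).card + (Rx x).card : ℕ) : ℝ) :=
      sum_congr rfl fun x _ => by rw [card_eq x]
    rw [h2, h1]
    have h3 : ∀ z ∈ univ.filter (Zb t b), ∑ w ∈ univ.filter p, ((z.card + w.card : ℕ) : ℝ) =
        ∑ w ∈ univ.filter p, ((1 : ℝ) + w.card) := by
      intro z hz
      simp only [mem_filter, mem_univ, true_and, Zb] at hz
      refine sum_congr rfl fun w _ => ?_
      rw [hz.1]
      push_cast
      ring
    rw [sum_congr rfl h3, sum_const, card_Zb, nsmul_eq_mul]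
  have e1 := key (Low h b)
  have e2 := key (fun w => ¬ Low h b w)
  have e3 : ∑ x ∈ A0 t h b, (x.card : ℝ) = _ := e1
  have e4 : ∑ x ∈ B0 t h b, (x.card : ℝ) = _ := e2
  rw [e3, e4, ← mul_sub, sum_add_distrib, sum_add_distrib, sum_const, sum_const, card_low,
    card_high, add_sub_add_left_eq_sub, dist_sum]

lemma mem_A0 {t h : ℕ} {b : Bool} {x : Finset (Fin (dm t h))} :
    x ∈ A0 t h b ↔ Zb t b (Lx x) ∧ Low h b (Rx x) := by simp [A0]

lemma mem_B0 {t h : ℕ} {b : Bool} {x : Finset (Fin (dm t h))} :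
    x ∈ B0 t h b ↔ Zb t b (Lx x) ∧ ¬ Low h b (Rx x) := by simp [B0]

lemma mem_R2 {t h : ℕ} {x : Finset (Fin (dm t h))} : x ∈ R2 t h ↔ 2 ≤ (Lx x).card := by
  simp [R2]

lemma mem_SS {t h : ℕ} {x : Finset (Fin (dm t h))} :
    x ∈ SS t h ↔ x ∈ R2 t h ∨ ∃ b, x ∈ A0 t h b := by
  rw [SS, mem_union, mem_union]
  simp [or_comm]

lemma R2_up {t h : ℕ} {x y : Finset (Fin (dm t h))} (hxy : x ⊆ y) (hx : x ∈ R2 t h) :
    y ∈ R2 t h := by
  rw [mem_R2] at hx ⊢
  exact hx.trans (card_le_card (subset_iff'.1 hxy).1)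

/-- The structure of pairs `x ⊂ y` with `x ∈ S`, `y ∉ S`. -/
lemma pair_struct {t h : ℕ} {x y : Finset (Fin (dm t h))} (hxy : x ⊆ y) (hx : x ∈ SS t h)
    (hy : y ∉ SS t h) : ∃ b, x ∈ A0 t h b ∧ y ∈ B0 t h b ∧ Lx y = Lx x := by
  rw [mem_SS] at hx
  rcases hx with hx | ⟨b, hx⟩
  · exact absurd (mem_SS.2 (Or.inl (R2_up hxy hx))) hy
  · have h1 : y ∉ R2 t h := fun h1 => hy (mem_SS.2 (Or.inl h1))
    have h2 := mem_A0.1 hx
    have h3 : (Lx x).card = 1 := h2.1.1
    have h4 := (subset_iff'.1 hxy).1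
    have h5 := card_le_card h4
    have h6 : ¬ 2 ≤ (Lx y).card := fun h6 => h1 (mem_R2.2 h6)
    have h7 : Lx x = Lx y := eq_of_subset_of_card_le h4 (by omega)
    have h8 : Zb t b (Lx y) := by
      rw [← h7]
      exact h2.1
    refine ⟨b, hx, mem_B0.2 ⟨h8, ?_⟩, h7.symm⟩
    intro h9
    exact hy (mem_SS.2 (Or.inr ⟨b, mem_A0.2 ⟨h8, h9⟩⟩))

lemma B0_notMem {t h : ℕ} {b : Bool} {x : Finset (Fin (dm t h))} (hx : x ∈ B0 t h b) :
    x ∉ SS t h := by
  intro h1
  have h2 := mem_B0.1 hx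
  rcases mem_SS.1 h1 with h3 | ⟨b', h3⟩
  · have := mem_R2.1 h3
    have := h2.1.1
    omega
  · have h4 := mem_A0.1 h3
    have h5 : b' = b := by rw [← h4.1.2, ← h2.1.2]
    rw [h5] at h4
    exact h2.2 h4.2

end Pool.Agent.V11127.CubeA
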