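import Pool.Agent.V11127.DjCommon

/-!
Removing arcs one by one; families of sets.
-/

namespace Pool.Agent.V11127.Dj

open Matrix Module

/-- The numbers of inversions that suffice. -/
def InvSet {V : Type} (A : V → V → Prop) : Set ℕ :=
  {k | ∃ (X : Fin k → V → ZMod 2) (f : V → ℕ), FamOK A X f}

lemma InvSet_mono {V : Type} {A B : V → V → Prop} (h : ∀ u v, B u v → A u v) :
    InvSet A ⊆ InvSet B := by
  rintro k ⟨X, f, hX⟩
  exact ⟨_, _, hX.pull id h⟩

lemma FamOK_iff {V ι : Type} [Fintype ι] {A : V → V → Prop} {X : ι → V → ZMod 2} {f : V → ℕ} :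
    FamOK A X f ↔ ∀ u v, A u v → (∑ i, X i u * X i v = 0 → f u < f v) ∧
      (∑ i, X i u * X i v = 1 → f v < f u) := by
  constructor
  · intro h u v huv
    refine ⟨fun h1 => h u v (Or.inl ⟨huv, h1⟩), fun h1 => h v u (Or.inr ⟨huv, ?_⟩)⟩
    rw [← h1]
    exact Finset.sum_congr rfl fun _ _ => mul_comm _ _
  · rintro h u v (⟨h1, h2⟩ | ⟨h1, h2⟩)
    · exact (h u v h1).1 h2
    · refine (h v u h1).2 ?_
      rw [← h2]
      exact Finset.sum_congr rfl fun _ _ => mul_comm _ _

lemma add_arc {V : Type} {A : V → V → Prop} (hA : ∀ u v, A u v → ¬ A v u) {u0 v0 : V}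
    (h0 : A u0 v0) {k : ℕ} (hk : k ∈ InvSet (fun u v => A u v ∧ ¬ (u = u0 ∧ v = v0))) :
    k + 1 ∈ InvSet A := by
  classical
  obtain ⟨X, f, hX⟩ := hk
  rw [FamOK_iff] at hX
  have hne : u0 ≠ v0 := by
    rintro rfl
    exact hA _ _ h0 h0
  let f' : V → ℕ := fun w => 2 * f w + (if w = v0 then 1 else 0)
  let c : ZMod 2 := (if f' u0 < f' v0 then 0 else 1) + ∑ i, X i u0 * X i v0
  let w : V → ZMod 2 := fun x => if x = u0 ∨ x = v0 then c else 0
  refine ⟨Fin.cons w X, f', ?_⟩
  rw [FamOK_iff]
  intro u v huv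
  rw [Fin.sum_univ_succ]
  simp only [Fin.cons_zero, Fin.cons_succ]
  by_cases huv0 : u = u0 ∧ v = v0
  · obtain ⟨rfl, rfl⟩ := huv0
    have hw : w u * w v = c := by
      have : ∀ x : ZMod 2, x * x = x := by decide
      simp [w, this]
    rw [hw]
    have hs : c + ∑ i, X i u * X i v = if f' u < f' v then 0 else 1 := by
      simp only [c]
      rw [add_assoc, CharTwo.add_self_eq_zero, add_zero]
    rw [hs]
    have hf' : f' u ≠ f' v := by
      simp only [f', hne, if_false, if_true]
      omega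
    constructor
    · intro h
      by_contra hcon
      rw [if_neg hcon] at h
      exact absurd h (by decide)
    · intro h
      by_contra hcon
      have : f' u < f' v := by omega
      rw [if_pos this] at h
      exact absurd h (by decide)
  · have hw : w u * w v = 0 := by
      by_contra hcon
      have h1 : u = u0 ∨ u = v0 := by
        by_contra h
        exact hcon (by simp [w, h])
      have h2 : v = u0 ∨ v = v0 := by
        by_contra h
        exact hcon (by simp [w, h])
      have hloop : u ≠ v := by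
        rintro rfl
        exact hA _ _ huv huv
      rcases h1 with rfl | rfl <;> rcases h2 with rfl | rfl
      · exact hloop rfl
      · exact huv0 ⟨rfl, rfl⟩
      · exact hA _ _ huv h0
      · exact hloop rfl
    rw [hw, zero_add]
    have h3 := hX u v ⟨huv, huv0⟩
    have hf : ∀ a b, f a < f b → f' a < f' b := by
      intro a b hab
      simp only [f']
      split_ifs <;> omega
    exact ⟨fun h => hf _ _ (h3.1 h), fun h => hf _ _ (h3.2 h)⟩

lemma inv_ivt {V : Type} [Finite V] (N : ℕ) : ∀ A : V → V → Prop, (∀ u v, A u v → ¬ A v u) →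
    (InvSet A).Nonempty → Nat.card {p : V × V // A p.1 p.2} ≤ N → ∀ j, j ≤ sInf (InvSet A) →
    ∃ B : V → V → Prop, (∀ u v, B u v → A u v) ∧ sInf (InvSet B) = j := by
  induction N with
  | zero =>
    intro A hA hne hcard j hj
    refine ⟨A, fun _ _ h => h, ?_⟩
    have h0 : ∀ u v, ¬ A u v := by
      intro u v huv
      have h1 : Nat.card {p : V × V // A p.1 p.2} = 0 := by omega
      rw [Nat.card_eq_zero] at h1
      rcases h1 with h1 | h1
      · exact h1.false ⟨(u, v), huv⟩
      · exact (not_finite_iff_infinite.2 h1) inferInstance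
    have h1 : 0 ∈ InvSet A := ⟨fun _ _ => 0, fun _ => 0, by
      rintro u v (h | h)
      · exact absurd h.1 (h0 _ _)
      · exact absurd h.1 (h0 _ _)⟩
    have := Nat.sInf_le h1
    omega
  | succ N ih =>
    intro A hA hne hcard j hj
    by_cases hj' : j = sInf (InvSet A)
    · exact ⟨A, fun _ _ h => h, hj'.symm⟩
    · by_cases hex : ∃ u0 v0, A u0 v0
      · obtain ⟨u0, v0, h0⟩ := hex
        let A' : V → V → Prop := fun u v => A u v ∧ ¬ (u = u0 ∧ v = v0)
        have hmono : ∀ u v, A' u v → A u v := fun u v h => h.1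
        have hne' : (InvSet A').Nonempty := hne.mono (InvSet_mono hmono)
        have hcard' : Nat.card {p : V × V // A' p.1 p.2} ≤ N := by
          have h2 : Nat.card {p : V × V // A' p.1 p.2} < Nat.card {p : V × V // A p.1 p.2} := by
            refine Set.ncard_lt_ncard (s := {p : V × V | A' p.1 p.2})
              (t := {p : V × V | A p.1 p.2}) ?_ (Set.toFinite _)
            rw [Set.ssubset_iff_of_subset (fun p hp => hp.1)]
            exact ⟨(u0, v0), h0, fun h => h.2 ⟨rfl, rfl⟩⟩
          omega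
        have h3 : sInf (InvSet A') + 1 ∈ InvSet A := add_arc hA h0 (Nat.sInf_mem hne')
        have h4 := Nat.sInf_le h3
        obtain ⟨B, hB, hB'⟩ := ih A' (fun u v h h' => hA u v h.1 h'.1) hne' hcard' j (by omega)
        exact ⟨B, fun u v h => (hB u v h).1, hB'⟩
      · refine ⟨A, fun _ _ h => h, ?_⟩
        have h1 : 0 ∈ InvSet A := ⟨fun _ _ => 0, fun _ => 0, by
          rintro u v (h | h)
          · exact absurd ⟨_, _, h.1⟩ hex
          · exact absurd ⟨_, _, h.1⟩ hex⟩
        have := Nat.sInf_le h1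
        omega

lemma setfam {V : Type} (A : V → V → Prop) (k : ℕ) :
    (∃ X : Fin k → Set V, ∃ f : V → ℕ, ∀ u v : V,
        (A u v ∧ Even (Nat.card {j : Fin k // u ∈ X j ∧ v ∈ X j})) ∨
        (A v u ∧ Odd (Nat.card {j : Fin k // u ∈ X j ∧ v ∈ X j})) → f u < f v) ↔
      k ∈ InvSet A := by
  classical
  have key : ∀ (x : Fin k → V → ZMod 2) (X : Fin k → Set V)
      (_ : ∀ j v, x j v = if v ∈ X j then 1 else 0) (u v : V),
      ((Nat.card {j : Fin k // u ∈ X j ∧ v ∈ X j} : ℕ) : ZMod 2) = ∑ j, x j u * x j v := by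
    intro x X hx u v
    rw [Nat.card_eq_fintype_card, Fintype.card_subtype, Finset.card_filter, Nat.cast_sum]
    refine Finset.sum_congr rfl fun j _ => ?_
    rw [hx, hx]
    by_cases h1 : u ∈ X j <;> by_cases h2 : v ∈ X j <;> simp [h1, h2]
  have key2 : ∀ (x : Fin k → V → ZMod 2) (X : Fin k → Set V)
      (_ : ∀ j v, x j v = if v ∈ X j then 1 else 0) (f : V → ℕ),
      (∀ u v : V,
        (A u v ∧ Even (Nat.card {j : Fin k // u ∈ X j ∧ v ∈ X j})) ∨
        (A v u ∧ Odd (Nat.card {j : Fin k // u ∈ X j ∧ v ∈ X j})) → f u < f v) ↔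
      FamOK A x f := by
    intro x X hx f
    unfold FamOK
    refine forall_congr' fun u => forall_congr' fun v => ?_
    rw [← key x X hx u v, ZMod.natCast_eq_zero_iff_even, ZMod.natCast_eq_one_iff_odd]
  constructor
  · rintro ⟨X, f, h⟩
    exact ⟨fun j v => if v ∈ X j then 1 else 0, f, (key2 _ X (fun _ _ => rfl) f).1 h⟩
  · rintro ⟨x, f, h⟩
    refine ⟨fun j => {v | x j v = 1}, f, (key2 x _ ?_ f).2 h⟩
    intro j v
    rcases zmod2 (x j v) with h1 | h1 <;> simp [h1]

end Pool.Agent.V11127.Dj
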