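import Pool.Agent.V11127.DjUpper

/-!
Decycling families, potentials and admissible matrices.
-/

namespace Pool.Agent.V11127.Dj

open Matrix Module

/-- The Gram matrix of a family. -/
def gram {V ι : Type} [Fintype ι] (X : ι → V → ZMod 2) : Matrix V V (ZMod 2) :=
  fun u v => ∑ i, X i u * X i v

lemma gram_rank {V : Type} [Fintype V] {k : ℕ} (X : Fin k → V → ZMod 2) :
    (gram X).rank ≤ k := by
  have h : gram X = (Matrix.of X)ᵀ * Matrix.of X := by
    ext u v
    simp [gram, Matrix.mul_apply]
  rw [h]
  refine (Matrix.rank_mul_le_left _ _).trans ?_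
  have h2 := Matrix.rank_le_card_width (Matrix.of X)ᵀ
  rwa [Fintype.card_fin] at h2

lemma gram_symm {V ι : Type} [Fintype ι] (X : ι → V → ZMod 2) (u v : V) :
    gram X u v = gram X v u :=
  Finset.sum_congr rfl fun _ _ => mul_comm _ _

lemma gram_adm {V ι : Type} [Fintype ι] {A : V → V → Prop} (hA : IsTour A)
    {X : ι → V → ZMod 2} {f : V → ℕ} (h : FamOK A X f) : Adm A f (gram X) := by
  have key : ∀ u v, u ≠ v → (A u v ∧ ¬ A v u) ∨ (A v u ∧ ¬ A u v) := by
    intro u v huv
    have := hA.2 u v huv
    tauto
  have hF : ∀ u v, ((A u v ∧ gram X u v = 0) ∨ (A v u ∧ gram X u v = 1)) → f u < f v := h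
  refine ⟨?_, ?_, ?_⟩
  · intro u v huv
    by_contra hne
    rcases zmod2 (gram X u v) with h1 | h1
    · rcases key u v hne with h2 | h2
      · have := hF u v (Or.inl ⟨h2.1, h1⟩)
        omega
      · rw [gram_symm] at h1
        have := hF v u (Or.inl ⟨h2.1, h1⟩)
        omega
    · rcases key u v hne with h2 | h2
      · rw [gram_symm] at h1
        have := hF v u (Or.inr ⟨h2.1, h1⟩)
        omega
      · have := hF u v (Or.inr ⟨h2.1, h1⟩)
        omega
  · ext u v
    exact gram_symm X v u
  · intro u v huv
    constructor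
    · intro h1
      rcases key u v huv with h2 | h2
      · exact Or.inl ⟨h2.1, hF v u (Or.inr ⟨h2.1, by rw [gram_symm]; exact h1⟩)⟩
      · exact Or.inr ⟨h2.1, hF u v (Or.inr ⟨h2.1, h1⟩)⟩
    · intro h1
      rcases zmod2 (gram X u v) with h2 | h2
      · exfalso
        rcases h1 with ⟨h3, h4⟩ | ⟨h3, h4⟩
        · have := hF u v (Or.inl ⟨h3, h2⟩)
          omega
        · rw [gram_symm] at h2
          have := hF v u (Or.inl ⟨h3, h2⟩)
          omega
      · exact h2

/-- Acyclic relations on finite types have potentials. -/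
lemma exists_potential {V : Type} [Fintype V] (R : V → V → Prop)
    (h : ∀ x, ¬ Relation.TransGen R x x) : ∃ f : V → ℕ, ∀ u v, R u v → f u < f v := by
  classical
  refine ⟨fun u => (Finset.univ.filter fun w => Relation.TransGen R w u).card, ?_⟩
  intro u v huv
  apply Finset.card_lt_card
  rw [Finset.ssubset_iff_of_subset]
  · exact ⟨u, by simpa using Relation.TransGen.single huv, by simpa using h u⟩
  · intro w hw
    simp only [Finset.mem_filter, Finset.mem_univ, true_and] at hw ⊢
    exact hw.tail huv

lemma not_transGen {V : Type} (R : V → V → Prop) (f : V → ℕ) (h : ∀ u v, R u v → f u < f v)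
    (x : V) : ¬ Relation.TransGen R x x := by
  have key : ∀ u v, Relation.TransGen R u v → f u < f v := by
    intro u v huv
    induction huv with
    | single h1 => exact h _ _ h1
    | tail _ h2 ih => exact ih.trans (h _ _ h2)
  intro hx
  exact lt_irrefl _ (key x x hx)

end Pool.Agent.V11127.Dj
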