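import Mathlib

/-!
Counting lemma: there is a symmetric matrix `Q` over `ZMod 2` with ones on the diagonal which is
far from all matrices of a small family.
-/

namespace Pool.Agent.V11127.Dj

open Matrix Module

/-- The symmetric matrix with ones on the diagonal and off-diagonal entries `g`. -/
def Qm {m : ℕ} (g : Sym2 (Fin m) → ZMod 2) : Matrix (Fin m) (Fin m) (ZMod 2) :=
  fun i j => if i = j then 1 else g s(i, j)

lemma Qm_symm {m : ℕ} (g : Sym2 (Fin m) → ZMod 2) (i j : Fin m) : Qm g i j = Qm g j i := by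
  unfold Qm
  by_cases h : i = j
  · subst h; rfl
  · have h' : ¬ j = i := fun e => h e.symm
    simp only [h, h', if_false]
    rw [Sym2.eq_swap]

lemma Qm_transpose {m : ℕ} (g : Sym2 (Fin m) → ZMod 2) : (Qm g)ᵀ = Qm g := by
  ext i j
  exact Qm_symm g j i

lemma Qm_dot {m : ℕ} (g : Sym2 (Fin m) → ZMod 2) (x y : Fin m → ZMod 2) :
    x ⬝ᵥ (Qm g) *ᵥ y = y ⬝ᵥ (Qm g) *ᵥ x := by
  rw [Matrix.dotProduct_mulVec, ← Matrix.mulVec_transpose, Qm_transpose, dotProduct_comm]

lemma Qm_inj {m : ℕ} {g g' : Sym2 (Fin m) → ZMod 2} (h : Qm g = Qm g')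
    (hd : ∀ i, g s(i, i) = g' s(i, i)) : g = g' := by
  funext s
  induction s using Sym2.ind with
  | _ i j =>
    by_cases hij : i = j
    · subst hij
      exact hd i
    · have := congrFun (congrFun h i) j
      simpa [Qm, hij] using this

/-- The number of symmetric matrices with ones on the diagonal mapping `Y` to `Z`. -/
lemma count_fix {m a : ℕ} (Y Z : Fin a → (Fin m → ZMod 2)) (hY : LinearIndependent (ZMod 2) Y) :
    Nat.card {g : Sym2 (Fin m) → ZMod 2 // ∀ k, (Qm g) *ᵥ (Y k) = Z k} ≤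
      2 ^ (Nat.choose (m - a + 1) 2 + m) := by
  classical
  obtain ⟨κ, b, hbl⟩ : ∃ (κ : Type) (b : Basis (Fin a ⊕ κ) (ZMod 2) (Fin m → ZMod 2)),
      ∀ k, b (Sum.inl k) = Y k :=
    ⟨Basis.sumExtendIndex hY, Basis.sumExtend hY, fun k => by simp [Basis.sumExtend]; rfl⟩
  have : Finite (Fin a ⊕ κ) := Module.Finite.finite_basis b
  have : Finite κ := Finite.of_injective (Sum.inr : κ → Fin a ⊕ κ) Sum.inr_injective
  have : Fintype κ := Fintype.ofFinite κ
  have hcard : Fintype.card κ = m - a := by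
    have h1 := Module.finrank_eq_card_basis b
    rw [Module.finrank_fin_fun, Fintype.card_sum, Fintype.card_fin] at h1
    omega
  have hsym : ∀ g : Sym2 (Fin m) → ZMod 2, ∀ i j : κ,
      b (Sum.inr i) ⬝ᵥ (Qm g) *ᵥ b (Sum.inr j) = b (Sum.inr j) ⬝ᵥ (Qm g) *ᵥ b (Sum.inr i) :=
    fun g i j => Qm_dot g _ _
  let Fm : {g : Sym2 (Fin m) → ZMod 2 // ∀ k, (Qm g) *ᵥ (Y k) = Z k} →
      (Sym2 κ → ZMod 2) × (Fin m → ZMod 2) := fun g =>
    (Sym2.lift ⟨fun i j => b (Sum.inr i) ⬝ᵥ (Qm g.1) *ᵥ b (Sum.inr j), hsym g.1⟩,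
      fun i => g.1 s(i, i))
  have hinj : Function.Injective Fm := by
    intro g g' h
    have h1 : ∀ i j : κ, b (Sum.inr i) ⬝ᵥ (Qm g.1) *ᵥ b (Sum.inr j)
        = b (Sum.inr i) ⬝ᵥ (Qm g'.1) *ᵥ b (Sum.inr j) := by
      intro i j
      have := congrFun (congrArg Prod.fst h) s(i, j)
      simpa [Fm] using this
    have h2 : ∀ i, g.1 s(i, i) = g'.1 s(i, i) := by
      intro i
      exact congrFun (congrArg Prod.snd h) i
    apply Subtype.ext
    refine Qm_inj ?_ h2
    have h3 : ∀ s t : Fin a ⊕ κ, b s ⬝ᵥ (Qm g.1) *ᵥ b t = b s ⬝ᵥ (Qm g'.1) *ᵥ b t := by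
      intro s t
      rcases t with t | t
      · rw [hbl t, g.2 t, g'.2 t]
      · rcases s with s | s
        · rw [Qm_dot g.1, Qm_dot g'.1, hbl s, g.2 s, g'.2 s]
        · exact h1 s t
    have h4 : ∀ x : Fin m → ZMod 2, ∀ t, x ⬝ᵥ (Qm g.1) *ᵥ b t = x ⬝ᵥ (Qm g'.1) *ᵥ b t := by
      intro x t
      have hx := b.sum_repr x
      rw [← hx, sum_dotProduct, sum_dotProduct]
      refine Finset.sum_congr rfl fun s _ => ?_
      rw [smul_dotProduct, smul_dotProduct, h3]
    have h5 : ∀ t, (Qm g.1) *ᵥ b t = (Qm g'.1) *ᵥ b t := by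
      intro t
      funext i
      have := h4 (Pi.single i 1) t
      simpa using this
    have h6 : Matrix.toLin' (Qm g.1) = Matrix.toLin' (Qm g'.1) := by
      refine b.ext fun t => ?_
      simpa using h5 t
    exact Matrix.toLin'.injective h6
  have h7 := Nat.card_le_card_of_injective Fm hinj
  refine h7.trans (le_of_eq ?_)
  rw [Nat.card_prod, Nat.card_fun, Nat.card_fun, Nat.card_eq_fintype_card (α := Sym2 κ),
    Sym2.card, hcard]
  simp [pow_add]

/-- The number of linearly independent tuples. -/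
lemma card_li {V : Type} [AddCommGroup V] [Module (ZMod 2) V] [Finite V] {a : ℕ}
    (h : a ≤ finrank (ZMod 2) V) :
    2 ^ (a * (a - 1)) ≤ Nat.card {s : Fin a → V // LinearIndependent (ZMod 2) s} := by
  rw [card_linearIndependent h, ZMod.card]
  calc 2 ^ (a * (a - 1)) = ∏ _i : Fin a, 2 ^ (a - 1) := by
        rw [Finset.prod_const, Finset.card_univ, Fintype.card_fin, ← pow_mul, mul_comm]
    _ ≤ _ := by
        refine Finset.prod_le_prod' fun i _ => ?_
        have hi := i.2
        have h1 : 2 ^ i.val ≤ 2 ^ (a - 1) := Nat.pow_le_pow_right (by norm_num) (by omega)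
        have h2 : 2 ^ (a - 1 + 1) ≤ 2 ^ finrank (ZMod 2) V :=
          Nat.pow_le_pow_right (by norm_num) (by omega)
        rw [pow_succ] at h2
        omega

/-- The number of matrices `Q` for which the kernel of `B - Q A` is large. -/
lemma count_bad {m a : ℕ} (A B : Matrix (Fin m) (Fin m) (ZMod 2))
    (h : ∀ w, A *ᵥ w = 0 → B *ᵥ w = 0 → w = 0) :
    Nat.card {g : Sym2 (Fin m) → ZMod 2 //
      a ≤ finrank (ZMod 2) (LinearMap.ker (B - Qm g * A).mulVecLin)} * 2 ^ (a * (a - 1)) ≤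
      2 ^ (m * a) * 2 ^ (Nat.choose (m - a + 1) 2 + m) := by
  classical
  let S := {g : Sym2 (Fin m) → ZMod 2 //
      a ≤ finrank (ZMod 2) (LinearMap.ker (B - Qm g * A).mulVecLin)}
  let G := Sym2 (Fin m) → ZMod 2
  let W := Fin a → Fin m → ZMod 2
  let R : G → W → Prop := fun g w =>
    LinearIndependent (ZMod 2) w ∧ ∀ k, (Qm g) *ᵥ (A *ᵥ w k) = B *ᵥ w k
  -- double counting
  have h1 : Nat.card (Σ w : W, {g : G // R g w}) ≤
      2 ^ (m * a) * 2 ^ (Nat.choose (m - a + 1) 2 + m) := by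
    have hW : Nat.card W = 2 ^ (m * a) := by
      simp [W, ← pow_mul]
    rw [Nat.card_sigma]
    calc ∑ w : W, Nat.card {g : G // R g w} ≤
        ∑ _w : W, 2 ^ (Nat.choose (m - a + 1) 2 + m) := by
          refine Finset.sum_le_sum fun w _ => ?_
          by_cases hw : ∃ g, R g w
          · obtain ⟨g0, hg0, hg1⟩ := hw
            have hli : LinearIndependent (ZMod 2) (fun k => A *ᵥ w k) := by
              rw [Fintype.linearIndependent_iff]
              intro c hc
              have hA : A *ᵥ (∑ k, c k • w k) = 0 := by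
                rw [Matrix.mulVec_sum]
                simpa [Matrix.mulVec_smul] using hc
              have hB : B *ᵥ (∑ k, c k • w k) = 0 := by
                have : B *ᵥ (∑ k, c k • w k) = (Qm g0) *ᵥ (A *ᵥ (∑ k, c k • w k)) := by
                  simp only [Matrix.mulVec_sum, Matrix.mulVec_smul]
                  exact Finset.sum_congr rfl fun k _ => by rw [hg1 k]
                rw [this, hA, Matrix.mulVec_zero]
              have := h _ hA hB
              exact (Fintype.linearIndependent_iff.1 hg0) c this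
            refine le_trans ?_ (count_fix (fun k => A *ᵥ w k) (fun k => B *ᵥ w k) hli)
            refine Nat.card_le_card_of_injective
              (fun g : {g : G // R g w} => (⟨g.1, g.2.2⟩ : {g : Sym2 (Fin m) → ZMod 2 //
                ∀ k, (Qm g) *ᵥ (A *ᵥ w k) = B *ᵥ w k})) ?_
            intro g g' hgg
            have hgg' := congrArg Subtype.val hgg
            exact Subtype.ext hgg'
          · have : IsEmpty {g : G // R g w} := ⟨fun g => hw ⟨g.1, g.2⟩⟩
            simp
      _ = _ := by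
          rw [Finset.sum_const, Finset.card_univ, ← Nat.card_eq_fintype_card, hW, smul_eq_mul]
  have h2 : Nat.card S * 2 ^ (a * (a - 1)) ≤ Nat.card (Σ w : W, {g : G // R g w}) := by
    have h3 : Nat.card (Σ g : S, {w : W // R g.1 w}) ≤ Nat.card (Σ w : W, {g : G // R g w}) := by
      refine Nat.card_le_card_of_injective
        (fun x : (Σ g : S, {w : W // R g.1 w}) =>
          (⟨x.2.1, ⟨x.1.1, x.2.2⟩⟩ : (Σ w : W, {g : G // R g w}))) ?_
      rintro ⟨⟨g, hg⟩, ⟨w, hw⟩⟩ ⟨⟨g', hg'⟩, ⟨w', hw'⟩⟩ hh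
      simp only [Sigma.mk.injEq] at hh
      obtain ⟨h5, h6⟩ := hh
      subst h5
      have h7 := eq_of_heq h6
      simp only [Subtype.mk.injEq] at h7
      subst h7
      rfl
    refine le_trans ?_ h3
    rw [Nat.card_sigma]
    calc Nat.card S * 2 ^ (a * (a - 1)) = ∑ _g : S, 2 ^ (a * (a - 1)) := by
          rw [Finset.sum_const, Finset.card_univ, ← Nat.card_eq_fintype_card, smul_eq_mul]
      _ ≤ _ := by
          refine Finset.sum_le_sum fun g _ => ?_
          refine (card_li g.2).trans ?_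
          refine Nat.card_le_card_of_injective
            (fun s : {s : Fin a → (LinearMap.ker (B - Qm g.1 * A).mulVecLin) //
              LinearIndependent (ZMod 2) s} => (⟨fun k => (s.1 k : Fin m → ZMod 2), ?_, ?_⟩ :
                {w : W // R g.1 w})) ?_
          · exact s.2.map' (LinearMap.ker (B - Qm g.1 * A).mulVecLin).subtype
              (Submodule.ker_subtype _)
          · intro k
            have := (s.1 k).2
            rw [LinearMap.mem_ker, Matrix.mulVecLin_apply, Matrix.sub_mulVec, sub_eq_zero,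
              ← Matrix.mulVec_mulVec] at this
            exact this.symm
          · intro s s' hs
            apply Subtype.ext
            funext k
            apply Subtype.ext
            exact congrFun (congrArg Subtype.val hs) k
  exact h2.trans h1

/-- The inversion matrix of `h`, with diagonal `d`. -/
def Pm {m : ℕ} (h : Fin m → Fin m) (d : Fin m → ZMod 2) : Matrix (Fin m) (Fin m) (ZMod 2) :=
  fun i j => if i = j then d i else if (i < j ∧ h j < h i) ∨ (j < i ∧ h i < h j) then 1 else 0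

theorem exists_good {m a : ℕ} (A S : Matrix (Fin m) (Fin m) (ZMod 2))
    (hA : ∀ w, A *ᵥ w = 0 → w = 0)
    (hc : m ^ m * 2 ^ m * 2 * (2 ^ (m * a) * 2 ^ (Nat.choose (m - a + 1) 2 + m)) <
      2 ^ (Nat.choose (m + 1) 2) * 2 ^ (a * (a - 1))) :
    ∃ g : Sym2 (Fin m) → ZMod 2, ∀ h d,
      finrank (ZMod 2) (LinearMap.ker (1 - Qm g * Pm h d).mulVecLin) < a ∧
      finrank (ZMod 2) (LinearMap.ker (S * Pm h d - Qm g * A).mulVecLin) < a := by
  classical
  by_contra hcon
  push Not at hcon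
  let I := ((Fin m → Fin m) × (Fin m → ZMod 2)) × Bool
  let AA : I → Matrix (Fin m) (Fin m) (ZMod 2) := fun x => if x.2 then Pm x.1.1 x.1.2 else A
  let BB : I → Matrix (Fin m) (Fin m) (ZMod 2) := fun x => if x.2 then 1 else S * Pm x.1.1 x.1.2
  have hAB : ∀ x, ∀ w, (AA x) *ᵥ w = 0 → (BB x) *ᵥ w = 0 → w = 0 := by
    rintro ⟨⟨h, d⟩, b⟩ w h1 h2
    cases b
    · exact hA w (by simpa [AA] using h1)
    · simpa [BB] using h2
  let Bad : I → Type := fun x => {g : Sym2 (Fin m) → ZMod 2 //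
      a ≤ finrank (ZMod 2) (LinearMap.ker (BB x - Qm g * AA x).mulVecLin)}
  have h1 : ∀ x, Nat.card (Bad x) * 2 ^ (a * (a - 1)) ≤
      2 ^ (m * a) * 2 ^ (Nat.choose (m - a + 1) 2 + m) := fun x => count_bad _ _ (hAB x)
  have h2 : Nat.card (Sym2 (Fin m) → ZMod 2) ≤ Nat.card (Σ x, Bad x) := by
    have hch : ∀ g : Sym2 (Fin m) → ZMod 2, ∃ x : I,
        a ≤ finrank (ZMod 2) (LinearMap.ker (BB x - Qm g * AA x).mulVecLin) := by
      intro g
      obtain ⟨h, d, hd⟩ := hcon g
      by_cases h3 : finrank (ZMod 2) (LinearMap.ker (1 - Qm g * Pm h d).mulVecLin) < a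
      · exact ⟨((h, d), false), by simpa [AA, BB] using hd h3⟩
      · exact ⟨((h, d), true), by simpa [AA, BB] using not_lt.1 h3⟩
    choose x hx using hch
    refine Nat.card_le_card_of_injective (fun g => (⟨x g, ⟨g, hx g⟩⟩ : Σ x, Bad x)) ?_
    intro g g' hg
    simp only [Sigma.mk.injEq] at hg
    obtain ⟨h5, h6⟩ := hg
    have : ∀ (y z : I) (u : Bad y) (v : Bad z), y = z → HEq u v → u.1 = v.1 := by
      rintro y z u v rfl h
      rw [eq_of_heq h]
    exact this _ _ _ _ h5 h6
  have h3 : Nat.card (Sym2 (Fin m) → ZMod 2) = 2 ^ (Nat.choose (m + 1) 2) := by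
    rw [Nat.card_fun, Nat.card_eq_fintype_card (α := Sym2 (Fin m)), Sym2.card]
    simp
  rw [h3, Nat.card_sigma] at h2
  have h4 : 2 ^ (Nat.choose (m + 1) 2) * 2 ^ (a * (a - 1)) ≤
      m ^ m * 2 ^ m * 2 * (2 ^ (m * a) * 2 ^ (Nat.choose (m - a + 1) 2 + m)) := by
    calc 2 ^ (Nat.choose (m + 1) 2) * 2 ^ (a * (a - 1)) ≤
        (∑ x, Nat.card (Bad x)) * 2 ^ (a * (a - 1)) := Nat.mul_le_mul_right _ h2
      _ = ∑ x, Nat.card (Bad x) * 2 ^ (a * (a - 1)) := by rw [Finset.sum_mul]
      _ ≤ ∑ _x : I, 2 ^ (m * a) * 2 ^ (Nat.choose (m - a + 1) 2 + m) :=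
          Finset.sum_le_sum fun x _ => h1 x
      _ = _ := by
          rw [Finset.sum_const, Finset.card_univ, smul_eq_mul]
          simp [I, Fintype.card_prod]
  omega

end Pool.Agent.V11127.Dj
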