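import Pool.Agent.V11127.DjArc

/-!
Symmetric matrices over `ZMod 2` as sums of squares; tournaments with inversion number equal to
the tournament minimum rank.
-/

namespace Pool.Agent.V11127.Dj

open Matrix Module

variable {V : Type}

lemma rank_add_le2 [Fintype V] (A B : Matrix V V (ZMod 2)) : (A + B).rank ≤ A.rank + B.rank := by
  rw [Matrix.rank, Matrix.mulVecLin_add]
  refine (Submodule.finrank_mono ?_).trans (Submodule.finrank_add_le_finrank_add_finrank _ _)
  exact LinearMap.range_add_le _ _

/-- `M` is a sum of `k` squares. -/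
def Gr (k : ℕ) (M : Matrix V V (ZMod 2)) : Prop := ∃ X : Fin k → V → ZMod 2, gram X = M

lemma Gr.add {k : ℕ} {M : Matrix V V (ZMod 2)} (h : Gr k M) (z : V → ZMod 2) :
    Gr (k + 1) (M + Matrix.of fun u v => z u * z v) := by
  obtain ⟨X, rfl⟩ := h
  refine ⟨Fin.cons z X, ?_⟩
  ext u v
  simp [gram, Fin.sum_univ_succ, add_comm]

lemma Gr.mono {k l : ℕ} {M : Matrix V V (ZMod 2)} (h : Gr k M) (hkl : k ≤ l) : Gr l M := by
  induction l, hkl using Nat.le_induction with
  | base => exact h
  | succ l _ ih =>
    have := ih.add 0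
    have e : M + (Matrix.of fun u v => (0 : V → ZMod 2) u * (0 : V → ZMod 2) v) = M := by
      ext u v
      simp
    rwa [e] at this

lemma Gr_zero : Gr 0 (0 : Matrix V V (ZMod 2)) := by
  refine ⟨Fin.elim0, ?_⟩
  ext u v
  simp [gram]

lemma drop_two [Fintype V] [DecidableEq V] (M : Matrix V V (ZMod 2)) (hs : ∀ u v, M u v = M v u)
    (hd : ∀ u, M u u = 0) {i j : V} (hij : M i j = 1) :
    (M + Matrix.of (fun u v => M i u * M j v + M j u * M i v)).rank + 2 = M.rank := by
  set N : Matrix V V (ZMod 2) := M + Matrix.of (fun u v => M i u * M j v + M j u * M i v) with hN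
  have hNk : ∀ k, N *ᵥ k = M *ᵥ k + (M j ⬝ᵥ k) • (M i) + (M i ⬝ᵥ k) • (M j) := by
    intro k
    rw [hN, Matrix.add_mulVec]
    funext u
    simp only [Pi.add_apply, Pi.smul_apply, smul_eq_mul, Matrix.mulVec, dotProduct, Matrix.of_apply]
    rw [Finset.sum_mul, Finset.sum_mul, ← Finset.sum_add_distrib, ← Finset.sum_add_distrib,
      ← Finset.sum_add_distrib]
    refine Finset.sum_congr rfl fun v _ => ?_
    ring
  let K := LinearMap.ker M.mulVecLin
  let K' := LinearMap.ker N.mulVecLin
  have hMij : ∀ k, M *ᵥ k = 0 → M i ⬝ᵥ k = 0 ∧ M j ⬝ᵥ k = 0 := by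
    intro k hk
    exact ⟨congrFun hk i, congrFun hk j⟩
  let T0 : (V → ZMod 2) →ₗ[ZMod 2] (ZMod 2 × ZMod 2) :=
    LinearMap.prod ((LinearMap.proj i : (V → ZMod 2) →ₗ[ZMod 2] ZMod 2) ∘ₗ M.mulVecLin)
      ((LinearMap.proj j : (V → ZMod 2) →ₗ[ZMod 2] ZMod 2) ∘ₗ M.mulVecLin)
  have hT0 : ∀ k, T0 k = (M i ⬝ᵥ k, M j ⬝ᵥ k) := fun k => rfl
  let T : K' →ₗ[ZMod 2] (ZMod 2 × ZMod 2) := T0 ∘ₗ K'.subtype
  have h1 : (LinearMap.ker T).map K'.subtype = K := by
    ext k
    rw [Submodule.mem_map]
    constructor
    · rintro ⟨k', hk', rfl⟩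
      rw [LinearMap.mem_ker] at hk' ⊢
      have h2 := k'.2
      rw [LinearMap.mem_ker, Matrix.mulVecLin_apply, hNk] at h2
      have h3 : T0 k'.1 = 0 := hk'
      rw [hT0, Prod.mk_eq_zero] at h3
      rw [h3.1, h3.2, zero_smul, zero_smul, add_zero, add_zero] at h2
      exact h2
    · intro hk
      rw [LinearMap.mem_ker, Matrix.mulVecLin_apply] at hk
      have h2 := hMij k hk
      refine ⟨⟨k, ?_⟩, ?_, rfl⟩
      · rw [LinearMap.mem_ker, Matrix.mulVecLin_apply, hNk, hk, h2.1, h2.2, zero_smul, zero_smul,
          add_zero, add_zero]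
      · rw [LinearMap.mem_ker]
        change T0 k = 0
        rw [hT0, h2.1, h2.2]
        rfl
  have hcol : ∀ t, M *ᵥ (Pi.single t 1) = M t := by
    intro t
    rw [Matrix.mulVec_single_one]
    funext u
    exact hs u t
  have hji : M j i = 1 := by rw [hs, hij]
  have hTi : (Pi.single i 1 : V → ZMod 2) ∈ K' := by
    rw [LinearMap.mem_ker, Matrix.mulVecLin_apply, hNk, hcol, dotProduct_single_one,
      dotProduct_single_one, hd, hji, one_smul, zero_smul, add_zero]
    funext u
    exact CharTwo.add_self_eq_zero _
  have hTj : (Pi.single j 1 : V → ZMod 2) ∈ K' := by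
    rw [LinearMap.mem_ker, Matrix.mulVecLin_apply, hNk, hcol, dotProduct_single_one,
      dotProduct_single_one, hd, hij, one_smul, zero_smul, add_zero]
    funext u
    exact CharTwo.add_self_eq_zero _
  have h2 : LinearMap.range T = ⊤ := by
    rw [LinearMap.range_eq_top]
    rintro ⟨x, y⟩
    refine ⟨x • ⟨_, hTj⟩ + y • ⟨_, hTi⟩, ?_⟩
    change T0 (x • (Pi.single j 1 : V → ZMod 2) + y • (Pi.single i 1 : V → ZMod 2)) = (x, y)
    rw [hT0, dotProduct_add, dotProduct_add, dotProduct_smul, dotProduct_smul, dotProduct_smul,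
      dotProduct_smul, dotProduct_single_one, dotProduct_single_one, dotProduct_single_one,
      dotProduct_single_one, hij, hd, hd, hji]
    simp
  have h3 := LinearMap.finrank_range_add_finrank_ker T
  rw [h2, finrank_top, Module.finrank_prod, Module.finrank_self,
    ← Submodule.finrank_map_subtype_eq K' (LinearMap.ker T), h1] at h3
  have h4 := LinearMap.finrank_range_add_finrank_ker M.mulVecLin
  have h5 := LinearMap.finrank_range_add_finrank_ker N.mulVecLin
  rw [Matrix.rank, Matrix.rank]
  change finrank (ZMod 2) (LinearMap.range N.mulVecLin) + 2 = _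
  have h6 : finrank (ZMod 2) K = finrank (ZMod 2) (LinearMap.ker M.mulVecLin) := rfl
  have h7 : finrank (ZMod 2) K' = finrank (ZMod 2) (LinearMap.ker N.mulVecLin) := rfl
  omega

lemma alt_gram [Fintype V] (ρ : ℕ) : ∀ M : Matrix V V (ZMod 2), (∀ u v, M u v = M v u) →
    (∀ u, M u u = 0) → M.rank = ρ → Even ρ ∧ ∀ z : V → ZMod 2,
      Gr (ρ + 1) (M + Matrix.of fun u v => z u * z v) := by
  classical
  induction ρ using Nat.strong_induction_on with
  | _ ρ ih =>
    intro M hs hd hr
    by_cases h0 : M = 0
    · subst h0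
      rw [Matrix.rank_zero] at hr
      subst hr
      exact ⟨Even.zero, fun z => Gr_zero.add z⟩
    · obtain ⟨i, j, hij⟩ : ∃ i j, M i j ≠ 0 := by
        by_contra hcon
        push Not at hcon
        exact h0 (by ext i j; exact hcon i j)
      have hij1 : M i j = 1 := (zmod2 (M i j)).resolve_left hij
      have h2 := drop_two M hs hd hij1
      obtain ⟨he, hg⟩ := ih _ (by omega)
        (M + Matrix.of (fun u v => M i u * M j v + M j u * M i v))
        (by
          intro u v
          simp only [Matrix.add_apply, Matrix.of_apply]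
          rw [hs u v]
          ring)
        (by
          intro u
          simp only [Matrix.add_apply, Matrix.of_apply]
          rw [hd, zero_add, mul_comm (M j u)]
          exact CharTwo.add_self_eq_zero _) rfl
      refine ⟨?_, ?_⟩
      · rw [← hr, ← h2]
        exact he.add (by decide)
      · intro z
        have h3 := ((hg (fun u => M i u + M j u + z u)).add (fun u => M i u + z u)).add
          (fun u => M j u + z u)
        have e : M + (Matrix.of (fun u v => M i u * M j v + M j u * M i v)) +
            (Matrix.of fun u v => (M i u + M j u + z u) * (M i v + M j v + z v)) +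
            (Matrix.of fun u v => (M i u + z u) * (M i v + z v)) +
            (Matrix.of fun u v => (M j u + z u) * (M j v + z v)) =
            M + Matrix.of fun u v => z u * z v := by
          ext u v
          simp only [Matrix.add_apply, Matrix.of_apply]
          generalize M i u = a1
          generalize M i v = a2
          generalize M j u = b1
          generalize M j v = b2
          generalize z u = c1
          generalize z v = c2
          generalize M u v = m
          revert a1 a2 b1 b2 c1 c2 m
          decide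
        rw [e] at h3
        exact h3.mono (by omega)

lemma drop_one [Fintype V] [DecidableEq V] (M : Matrix V V (ZMod 2)) (hs : ∀ u v, M u v = M v u)
    {i : V} (hi : M i i = 1) :
    (M + Matrix.of (fun u v => M i u * M i v)).rank < M.rank := by
  set N : Matrix V V (ZMod 2) := M + Matrix.of (fun u v => M i u * M i v) with hN
  have hNk : ∀ k, N *ᵥ k = M *ᵥ k + (M i ⬝ᵥ k) • (M i) := by
    intro k
    rw [hN, Matrix.add_mulVec]
    funext u
    simp only [Pi.add_apply, Pi.smul_apply, smul_eq_mul, Matrix.mulVec, dotProduct, Matrix.of_apply]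
    rw [Finset.sum_mul]
    congr 1
    refine Finset.sum_congr rfl fun v _ => ?_
    ring
  have hcol : M *ᵥ (Pi.single i 1) = M i := by
    rw [Matrix.mulVec_single_one]
    funext u
    exact hs u i
  have hlt : LinearMap.ker M.mulVecLin < LinearMap.ker N.mulVecLin := by
    refine lt_of_le_of_ne ?_ ?_
    · intro k hk
      rw [LinearMap.mem_ker, Matrix.mulVecLin_apply] at hk ⊢
      have h1 : M i ⬝ᵥ k = 0 := congrFun hk i
      rw [hNk, hk, h1, zero_smul, add_zero]
    · intro h
      have h1 : (Pi.single i 1 : V → ZMod 2) ∈ LinearMap.ker N.mulVecLin := by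
        rw [LinearMap.mem_ker, Matrix.mulVecLin_apply, hNk, hcol, dotProduct_single_one, hi,
          one_smul]
        funext u
        exact CharTwo.add_self_eq_zero _
      rw [← h, LinearMap.mem_ker, Matrix.mulVecLin_apply, hcol] at h1
      have h6 : M i i = 0 := congrFun h1 i
      rw [hi] at h6
      exact absurd h6 (by decide)
  have h3 := Submodule.finrank_lt_finrank_of_lt hlt
  have h4 := LinearMap.finrank_range_add_finrank_ker M.mulVecLin
  have h5 := LinearMap.finrank_range_add_finrank_ker N.mulVecLin
  rw [Matrix.rank, Matrix.rank]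
  omega

lemma diag_gram [Fintype V] (ρ : ℕ) : ∀ M : Matrix V V (ZMod 2), (∀ u v, M u v = M v u) →
    (∃ u, M u u = 1) → M.rank = ρ → Gr ρ M := by
  classical
  induction ρ using Nat.strong_induction_on with
  | _ ρ ih =>
    intro M hs hd hr
    obtain ⟨i, hi⟩ := hd
    have h1 := drop_one M hs hi
    set N : Matrix V V (ZMod 2) := M + Matrix.of (fun u v => M i u * M i v) with hN
    have hsN : ∀ u v, N u v = N v u := by
      intro u v
      simp only [hN, Matrix.add_apply, Matrix.of_apply]
      rw [hs u v]
      ring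
    have e : N + Matrix.of (fun u v => M i u * M i v) = M := by
      ext u v
      simp only [hN, Matrix.add_apply, Matrix.of_apply]
      rw [add_assoc, CharTwo.add_self_eq_zero, add_zero]
    by_cases hdN : ∃ u, N u u = 1
    · have h2 := (ih _ (by omega) N hsN hdN rfl).add (M i)
      rw [e] at h2
      exact h2.mono (by omega)
    · have hdN' : ∀ u, N u u = 0 := by
        intro u
        rcases zmod2 (N u u) with h | h
        · exact h
        · exact absurd ⟨u, h⟩ hdN
      have h2 := (alt_gram _ N hsN hdN' rfl).2 (M i)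
      rw [e] at h2
      exact h2.mono (by omega)

end Pool.Agent.V11127.Dj
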