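import Pool.Agent.V11127.DjCount

/-!
Lower bounds for the tournament minimum rank of two special tournaments.
-/

namespace Pool.Agent.V11127.Dj

open Matrix Module

/-- The tournament with vertex positions `pos` in which the pairs with `M = 1` are reversed. -/
def Tr {V : Type} (pos : V → ℕ) (M : V → V → ZMod 2) (u v : V) : Prop :=
  (pos u < pos v ∧ M u v = 0) ∨ (pos v < pos u ∧ M u v = 1)

/-- `M` is an admissible matrix for the relation `A` and the order given by `f`. -/
def Adm {V : Type} (A : V → V → Prop) (f : V → ℕ) (M : Matrix V V (ZMod 2)) : Prop :=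
  Function.Injective f ∧ M.IsSymm ∧
    ∀ u v, u ≠ v → (M u v = 1 ↔ ((A u v ∧ f v < f u) ∨ (A v u ∧ f u < f v)))

lemma zmod2 (x : ZMod 2) : x = 0 ∨ x = 1 := by
  revert x
  decide

lemma adm_entry {V : Type} {pos : V → ℕ} {M0 : V → V → ZMod 2} (hpos : Function.Injective pos)
    (hs : ∀ u v, M0 u v = M0 v u) {f : V → ℕ} {M : Matrix V V (ZMod 2)}
    (h : Adm (Tr pos M0) f M) {u v : V} (huv : u ≠ v) :
    M u v = M0 u v + (if (pos u < pos v ∧ f v < f u) ∨ (pos v < pos u ∧ f u < f v)
      then 1 else 0) := by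
  have h1 := h.2.2 u v huv
  have h2 : pos u ≠ pos v := fun e => huv (hpos e)
  have h3 : f u ≠ f v := fun e => huv (h.1 e)
  have h4 := hs u v
  unfold Tr at h1
  rw [← h4] at h1
  have h7 : pos u < pos v ∧ ¬ pos v < pos u ∨ pos v < pos u ∧ ¬ pos u < pos v := by omega
  have h8 : f u < f v ∧ ¬ f v < f u ∨ f v < f u ∧ ¬ f u < f v := by omega
  rcases zmod2 (M0 u v) with h5 | h5 <;> rcases zmod2 (M u v) with h6 | h6 <;>
    rcases h7 with ⟨h7, h7'⟩ | ⟨h7, h7'⟩ <;> rcases h8 with ⟨h8, h8'⟩ | ⟨h8, h8'⟩ <;>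
    rw [h5, h6] at h1 <;> rw [h5, h6] <;> simp [h7, h7', h8, h8'] at h1 ⊢ <;> decide

/-- Positions as elements of `Fin m`. -/
def hf {m : ℕ} (L : Fin m → ℕ) (i : Fin m) : Fin m :=
  ⟨(Finset.univ.filter fun j => L j < L i).card, by
    have : (Finset.univ.filter fun j => L j < L i).card < (Finset.univ : Finset (Fin m)).card := by
      apply Finset.card_lt_card
      rw [Finset.ssubset_univ_iff]
      intro h
      have := Finset.mem_univ i
      rw [← h] at this
      simp at this
    simpa using this⟩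

lemma hf_lt {m : ℕ} (L : Fin m → ℕ) (i j : Fin m) : hf L i < hf L j ↔ L i < L j := by
  have key : ∀ i j, L i < L j → hf L i < hf L j := by
    intro i j h
    rw [Fin.lt_def]
    change (Finset.univ.filter fun k => L k < L i).card < (Finset.univ.filter fun k => L k < L j).card
    apply Finset.card_lt_card
    rw [Finset.ssubset_iff_of_subset]
    · exact ⟨i, by simpa using h, by simp⟩
    · intro k hk
      simp only [Finset.mem_filter, Finset.mem_univ, true_and] at hk ⊢
      omega
  constructor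
  · intro h
    by_contra hcon
    rcases Nat.lt_or_ge (L j) (L i) with h1 | h1
    · exact absurd (key j i h1) (not_lt.2 h.le)
    · have h2 : L i = L j := by omega
      have h3 : hf L i = hf L j := Fin.ext (by simp [hf, h2])
      rw [h3] at h
      exact lt_irrefl _ h
  · exact key i j

/-- Lower bound for the small tournament. -/
theorem lowR {m a : ℕ} (g : Sym2 (Fin m) → ZMod 2) (T S : Matrix (Fin m) (Fin m) (ZMod 2))
    (hS : S * Tᵀ = 1)
    (hgood : ∀ h d, finrank (ZMod 2) (LinearMap.ker (S * Pm h d - Qm g * T).mulVecLin) < a)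
    (f : Fin m → ℕ) (M : Matrix (Fin m) (Fin m) (ZMod 2))
    (hA : Adm (Tr (fun i : Fin m => (i : ℕ)) (fun i j => (Tᵀ * Qm g * T) i j)) f M) :
    m < M.rank + a := by
  by_contra hcon
  have hsymm : ∀ i j, (Tᵀ * Qm g * T) i j = (Tᵀ * Qm g * T) j i := by
    intro i j
    have : (Tᵀ * Qm g * T)ᵀ = Tᵀ * Qm g * T := by
      rw [Matrix.transpose_mul, Matrix.transpose_mul, Matrix.transpose_transpose, Qm_transpose,
        Matrix.mul_assoc]
    exact (congrFun (congrFun this j) i)
  have hM : M = Tᵀ * Qm g * T + Pm (hf f) (fun i => M i i + (Tᵀ * Qm g * T) i i) := by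
    ext i j
    rw [Matrix.add_apply]
    by_cases hij : i = j
    · subst hij
      simp only [Pm, if_true]
      rw [add_comm (M i i), ← add_assoc, CharTwo.add_self_eq_zero, zero_add]
    · rw [adm_entry (fun a b h => Fin.ext h) hsymm hA hij]
      simp only [Pm, hij, if_false, hf_lt]
      simp only [Fin.lt_def]
  have h1 := LinearMap.finrank_range_add_finrank_ker M.mulVecLin
  rw [Module.finrank_fin_fun] at h1
  have h2 : LinearMap.ker M.mulVecLin ≤ LinearMap.ker
      (S * Pm (hf f) (fun i => M i i + (Tᵀ * Qm g * T) i i) - Qm g * T).mulVecLin := by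
    intro w hw
    rw [LinearMap.mem_ker, Matrix.mulVecLin_apply] at hw ⊢
    rw [hM, Matrix.add_mulVec] at hw
    have h3 : S *ᵥ ((Tᵀ * Qm g * T) *ᵥ w) +
        S *ᵥ (Pm (hf f) (fun i => M i i + (Tᵀ * Qm g * T) i i) *ᵥ w) = 0 := by
      rw [← Matrix.mulVec_add, hw, Matrix.mulVec_zero]
    rw [Matrix.mulVec_mulVec, Matrix.mulVec_mulVec, ← Matrix.mul_assoc, ← Matrix.mul_assoc, hS,
      Matrix.one_mul] at h3
    have h6 : -((Qm g * T) *ᵥ w) = (Qm g * T) *ᵥ w := by
      funext i
      simp [CharTwo.neg_eq]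
    rw [Matrix.sub_mulVec, sub_eq_add_neg, h6, add_comm]
    exact h3
  have h4 := Submodule.finrank_mono h2
  have h5 := hgood (hf f) (fun i => M i i + (Tᵀ * Qm g * T) i i)
  rw [Matrix.rank] at hcon
  omega

/-- The vectors attached to the elements of `Option (Fin m)`. -/
def cv {m : ℕ} : Option (Fin m) → Fin m → ZMod 2
  | none => 0
  | some j => Pi.single j 1

/-- The rank of the block matrix. -/
lemma block_rank {m a : ℕ} (Q P : Matrix (Fin m) (Fin m) (ZMod 2)) {V : Type} [Fintype V]
    (M : Matrix V V (ZMod 2)) (r s : Fin m × Option (Fin m) → V)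
    (hM : ∀ x y, M (r x) (s y) = P x.1 y.1 + cv y.2 x.1 + cv x.2 y.1 + cv x.2 ⬝ᵥ Q *ᵥ cv y.2)
    (hker : finrank (ZMod 2) (LinearMap.ker (1 - Q * P).mulVecLin) < a) :
    2 * m < M.rank + a := by
  classical
  by_contra hcon
  let G : (Fin m × Option (Fin m) → V) → Matrix V (Fin m ⊕ Fin m) (ZMod 2) := fun r =>
    Matrix.of fun x t => Sum.elim (fun i => if x = r (i, none) then 1 else 0)
      (fun j => (if x = r (j, some j) then 1 else 0) + (if x = r (j, none) then 1 else 0)) t
  have hPsi : (G r)ᵀ * M * (G s) = fromBlocks P 1 1 Q := by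
    have h2 : ∀ x : ZMod 2, x + x = 0 := fun x => CharTwo.add_self_eq_zero x
    ext i j
    rcases i with i | i <;> rcases j with j | j
    · simp [G, Matrix.mul_apply, hM, cv]
    · simp [G, Matrix.mul_apply, hM, cv, mul_add, Finset.sum_add_distrib, Matrix.one_apply,
        Pi.single_apply]
      ring_nf
      have : (2 : ZMod 2) = 0 := rfl
      simp [this]
    · simp [G, Matrix.mul_apply, hM, cv, add_mul, Finset.sum_add_distrib, Matrix.one_apply,
        Pi.single_apply]
      ring_nf
      have : (2 : ZMod 2) = 0 := rfl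
      simp [this, eq_comm]
    · simp [G, Matrix.mul_apply, hM, cv, add_mul, mul_add, Finset.sum_add_distrib,
        Pi.single_apply]
      ring_nf
      have : (2 : ZMod 2) = 0 := rfl
      have h4 : (4 : ZMod 2) = 0 := rfl
      simp [this, h4]
  have hr : (fromBlocks P 1 1 Q : Matrix (Fin m ⊕ Fin m) (Fin m ⊕ Fin m) (ZMod 2)).rank
      ≤ M.rank := by
    rw [← hPsi]
    exact (Matrix.rank_mul_le_left _ _).trans (Matrix.rank_mul_le_right _ _)
  have h1 := LinearMap.finrank_range_add_finrank_ker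
    (fromBlocks P 1 1 Q : Matrix (Fin m ⊕ Fin m) (Fin m ⊕ Fin m) (ZMod 2)).mulVecLin
  rw [Module.finrank_fintype_fun_eq_card, Fintype.card_sum, Fintype.card_fin] at h1
  have h3 : finrank (ZMod 2) (LinearMap.ker
      (fromBlocks P 1 1 Q : Matrix (Fin m ⊕ Fin m) (Fin m ⊕ Fin m) (ZMod 2)).mulVecLin) ≤
      finrank (ZMod 2) (LinearMap.ker (1 - Q * P).mulVecLin) := by
    have hk : ∀ w, (fromBlocks P 1 1 Q : Matrix (Fin m ⊕ Fin m) (Fin m ⊕ Fin m) (ZMod 2)) *ᵥ w = 0 →
        w ∘ Sum.inr = P *ᵥ (w ∘ Sum.inl) ∧ (1 - Q * P) *ᵥ (w ∘ Sum.inl) = 0 := by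
      intro w hw
      rw [Matrix.fromBlocks_mulVec] at hw
      have e1 : P *ᵥ (w ∘ Sum.inl) + (w ∘ Sum.inr) = 0 := by
        funext i
        have := congrFun hw (Sum.inl i)
        simpa using this
      have e2 : (w ∘ Sum.inl) + Q *ᵥ (w ∘ Sum.inr) = 0 := by
        funext i
        have := congrFun hw (Sum.inr i)
        simpa using this
      have e3 : w ∘ Sum.inr = P *ᵥ (w ∘ Sum.inl) := by
        rw [add_eq_zero_iff_eq_neg'] at e1
        rw [e1]
        funext i
        simp [CharTwo.neg_eq]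
      refine ⟨e3, ?_⟩
      rw [Matrix.sub_mulVec, Matrix.one_mulVec, ← Matrix.mulVec_mulVec, ← e3]
      rw [sub_eq_add_neg]
      have : -(Q *ᵥ (w ∘ Sum.inr)) = Q *ᵥ (w ∘ Sum.inr) := by
        funext i
        simp [CharTwo.neg_eq]
      rw [this]
      exact e2
    let L : (LinearMap.ker (fromBlocks P 1 1 Q :
        Matrix (Fin m ⊕ Fin m) (Fin m ⊕ Fin m) (ZMod 2)).mulVecLin) →ₗ[ZMod 2]
        (LinearMap.ker (1 - Q * P).mulVecLin) :=
      LinearMap.restrict (LinearMap.funLeft (ZMod 2) (ZMod 2) (Sum.inl : Fin m → Fin m ⊕ Fin m))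
        (by
          intro w hw
          rw [LinearMap.mem_ker, Matrix.mulVecLin_apply] at hw ⊢
          exact (hk w hw).2)
    refine LinearMap.finrank_le_finrank_of_injective (f := L) ?_
    rw [← LinearMap.ker_eq_bot, LinearMap.ker_eq_bot']
    rintro ⟨w, hw⟩ h
    have hw' := hw
    rw [LinearMap.mem_ker, Matrix.mulVecLin_apply] at hw'
    have h5 : w ∘ Sum.inl = 0 := congrArg Subtype.val h
    have h6 := (hk w hw').1
    rw [h5, Matrix.mulVec_zero] at h6
    apply Subtype.ext
    funext x
    rcases x with x | x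
    · exact congrFun h5 x
    · exact congrFun h6 x
  rw [Matrix.rank] at hr
  omega

/-- The vertex type of the large tournament. -/
abbrev DV (m N : ℕ) := Fin m × Fin N × Option (Fin m)

/-- The matrix of the large tournament. -/
def phi {m : ℕ} (N : ℕ) (g : Sym2 (Fin m) → ZMod 2) (u v : DV m N) : ZMod 2 :=
  cv v.2.2 u.1 + cv u.2.2 v.1 + cv u.2.2 ⬝ᵥ (Qm g) *ᵥ cv v.2.2

lemma phi_symm {m N : ℕ} (g : Sym2 (Fin m) → ZMod 2) (u v : DV m N) :
    phi N g u v = phi N g v u := by
  unfold phi
  rw [Qm_dot, add_comm (cv v.2.2 u.1)]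

/-- Two vertices with equal rows form an interval in both orders. -/
lemma interval {V : Type} {pos : V → ℕ} {M0 : V → V → ZMod 2} (hpos : Function.Injective pos)
    (hs : ∀ u v, M0 u v = M0 v u) {f : V → ℕ} {M : Matrix V V (ZMod 2)}
    (h : Adm (Tr pos M0) f M) {u v w : V} (huv : pos u < pos v) (h1 : ∀ w, M u w = M v w)
    (h2 : ∀ w, M0 u w = M0 v w) :
    (pos u < pos w → pos w < pos v → (f u < f w ∧ f w < f v) ∨ (f v < f w ∧ f w < f u)) ∧
    ((pos w < pos u ∨ pos v < pos w) → (f w < f u ∧ f w < f v) ∨ (f u < f w ∧ f v < f w)) := by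
  have key : w ≠ u → w ≠ v → (((pos u < pos w ∧ f w < f u) ∨ (pos w < pos u ∧ f u < f w)) ↔
      ((pos v < pos w ∧ f w < f v) ∨ (pos w < pos v ∧ f v < f w))) := by
    intro hu hv
    have e1 := adm_entry hpos hs h hu.symm
    have e2 := adm_entry hpos hs h hv.symm
    rw [h1 w, e2, h2 w] at e1
    have e3 := add_left_cancel e1
    by_cases c1 : (pos u < pos w ∧ f w < f u) ∨ (pos w < pos u ∧ f u < f w) <;>
      by_cases c2 : (pos v < pos w ∧ f w < f v) ∨ (pos w < pos v ∧ f v < f w)
    · exact ⟨fun _ => c2, fun _ => c1⟩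
    · rw [if_pos c1, if_neg c2] at e3
      exact absurd e3 (by decide)
    · rw [if_neg c1, if_pos c2] at e3
      exact absurd e3 (by decide)
    · exact ⟨fun hh => absurd hh c1, fun hh => absurd hh c2⟩
  constructor
  · intro a1 a2
    have hu : w ≠ u := by rintro rfl; omega
    have hv : w ≠ v := by rintro rfl; omega
    have k := key hu hv
    have f1 : f w ≠ f u := fun e => hu (h.1 e)
    have f2 : f w ≠ f v := fun e => hv (h.1 e)
    omega
  · intro a1
    have hu : w ≠ u := by rintro rfl; omega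
    have hv : w ≠ v := by rintro rfl; omega
    have k := key hu hv
    have f1 : f w ≠ f u := fun e => hu (h.1 e)
    have f2 : f w ≠ f v := fun e => hv (h.1 e)
    omega

/-- Four positions with equal rows. -/
lemma four {m N : ℕ} (M : Matrix (DV m N) (DV m N) (ZMod 2)) (hr : M.rank ≤ 2 * m)
    (hN : 3 * 2 ^ (2 * m * (m + 1)) < N) (i : Fin m) :
    ∃ e : Fin 4 → Fin N, StrictMono e ∧ ∀ k l c w, M (i, e k, c) w = M (i, e l, c) w := by
  classical
  let S := Submodule.span (ZMod 2) (Set.range M.row)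
  have hS : finrank (ZMod 2) S = M.rank := (Matrix.rank_eq_finrank_span_row M).symm
  have : Fintype S := Fintype.ofFinite S
  let Fi : Fin N → (Option (Fin m) → S) := fun p c =>
    ⟨M (i, p, c), Submodule.subset_span ⟨(i, p, c), rfl⟩⟩
  have hcard : Fintype.card (Option (Fin m) → S) * 3 < Fintype.card (Fin N) := by
    rw [Fintype.card_fin]
    refine lt_of_le_of_lt ?_ hN
    rw [mul_comm]
    refine Nat.mul_le_mul_left _ ?_
    rw [Fintype.card_fun, Module.card_eq_pow_finrank (K := ZMod 2) (V := S), hS, ZMod.card,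
      Fintype.card_option, Fintype.card_fin, ← pow_mul]
    exact Nat.pow_le_pow_right (by norm_num) (Nat.mul_le_mul_right _ hr)
  obtain ⟨y, hy⟩ := Fintype.exists_lt_card_fiber_of_mul_lt_card Fi hcard
  let s := Finset.univ.filter fun p => Fi p = y
  have hs4 : 4 ≤ s.card := hy
  refine ⟨s.orderEmbOfCardLe hs4, (s.orderEmbOfCardLe hs4).strictMono, ?_⟩
  intro k l c w
  have hk := Finset.orderEmbOfCardLe_mem s hs4 k
  have hl := Finset.orderEmbOfCardLe_mem s hs4 l
  simp only [s, Finset.mem_filter, Finset.mem_univ, true_and] at hk hl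
  have h1 : Fi (s.orderEmbOfCardLe hs4 k) = Fi (s.orderEmbOfCardLe hs4 l) := hk.trans hl.symm
  have h2 := congrArg Subtype.val (congrFun h1 c)
  exact congrFun h2 w

/-- Lower bound for the large tournament. -/
theorem lowD {m N a : ℕ} (g : Sym2 (Fin m) → ZMod 2) (pos : DV m N → ℕ)
    (hinj : Function.Injective pos) (hP1 : ∀ u v : DV m N, u.1 < v.1 → pos u < pos v)
    (hP2 : ∀ u v : DV m N, u.1 = v.1 → u.2.1 < v.2.1 → pos u < pos v)
    (hN : 3 * 2 ^ (2 * m * (m + 1)) < N)
    (hgood : ∀ h d, finrank (ZMod 2) (LinearMap.ker (1 - Qm g * Pm h d).mulVecLin) < a)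
    (f : DV m N → ℕ) (M : Matrix (DV m N) (DV m N) (ZMod 2))
    (hA : Adm (Tr pos (phi N g)) f M) : 2 * m < M.rank + a := by
  by_contra hcon
  choose e he1 he2 using four M (by omega) hN
  have hphi : ∀ i p q c w, phi N g (i, p, c) w = phi N g (i, q, c) w := fun i p q c w => rfl
  -- the intervals
  have hint : ∀ i (k l : Fin 4) c w, k < l →
      (pos (i, e i k, c) < pos w → pos w < pos (i, e i l, c) →
        (f (i, e i k, c) < f w ∧ f w < f (i, e i l, c)) ∨
        (f (i, e i l, c) < f w ∧ f w < f (i, e i k, c))) ∧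
      ((pos w < pos (i, e i k, c) ∨ pos (i, e i l, c) < pos w) →
        (f w < f (i, e i k, c) ∧ f w < f (i, e i l, c)) ∨
        (f (i, e i k, c) < f w ∧ f (i, e i l, c) < f w)) := by
    intro i k l c w hkl
    exact interval hinj (phi_symm g) hA (hP2 _ _ rfl (he1 i hkl)) (he2 i k l c)
      (hphi i _ _ c)
  -- comparison of different blocks
  have hdiff : ∀ i i' c c', i ≠ i' → (f (i, e i 1, c) < f (i', e i' 2, c') ↔
      f (i, e i 0, none) < f (i', e i' 0, none)) := by
    intro i i' c c' hii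
    have t1 := (hint i 0 3 none (i, e i 1, c) (by decide)).1
      (hP2 _ _ rfl (he1 i (by decide))) (hP2 _ _ rfl (he1 i (by decide)))
    have t2 := (hint i' 0 3 none (i', e i' 2, c') (by decide)).1
      (hP2 _ _ rfl (he1 i' (by decide))) (hP2 _ _ rfl (he1 i' (by decide)))
    have hor : ∀ p q c c', (pos (i', q, c') < pos (i, p, c) ∧ i' < i) ∨
        (pos (i, p, c) < pos (i', q, c') ∧ i < i') := by
      intro p q c c'
      rcases lt_or_gt_of_ne hii with h | h
      · exact Or.inr ⟨hP1 _ _ h, h⟩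
      · exact Or.inl ⟨hP1 _ _ h, h⟩
    have out : ∀ q c', (f (i', q, c') < f (i, e i 0, none) ∧ f (i', q, c') < f (i, e i 3, none)) ∨
        (f (i, e i 0, none) < f (i', q, c') ∧ f (i, e i 3, none) < f (i', q, c')) := by
      intro q c'
      refine (hint i 0 3 none (i', q, c') (by decide)).2 ?_
      rcases lt_or_gt_of_ne hii with h | h
      · exact Or.inr (hP1 _ _ h)
      · exact Or.inl (hP1 _ _ h)
    have out' : ∀ p c, (f (i, p, c) < f (i', e i' 0, none) ∧ f (i, p, c) < f (i', e i' 3, none)) ∨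
        (f (i', e i' 0, none) < f (i, p, c) ∧ f (i', e i' 3, none) < f (i, p, c)) := by
      intro p c
      refine (hint i' 0 3 none (i, p, c) (by decide)).2 ?_
      rcases lt_or_gt_of_ne hii with h | h
      · exact Or.inl (hP1 _ _ h)
      · exact Or.inr (hP1 _ _ h)
    have t3 := out (e i' 2) c'
    have t4 := out (e i' 0) none
    have t5 := out' (e i 1) c
    have t6 := out' (e i 0) none
    omega
  -- comparison inside a block
  have hsame : ∀ i c c', (f (i, e i 1, c) < f (i, e i 2, c') ↔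
      f (i, e i 0, none) < f (i, e i 2, none)) := by
    intro i c c'
    have t1 : ∀ c', (f (i, e i 1, c) < f (i, e i 2, c') ∧ f (i, e i 2, c') < f (i, e i 3, c)) ∨
        (f (i, e i 3, c) < f (i, e i 2, c') ∧ f (i, e i 2, c') < f (i, e i 1, c)) := fun c' =>
      (hint i 1 3 c (i, e i 2, c') (by decide)).1
        (hP2 _ _ rfl (he1 i (by decide))) (hP2 _ _ rfl (he1 i (by decide)))
    have t2 := (hint i 0 2 none (i, e i 1, c) (by decide)).1
        (hP2 _ _ rfl (he1 i (by decide))) (hP2 _ _ rfl (he1 i (by decide)))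
    have t3 := t1 c'
    have t4 := t1 none
    omega
  let L : Fin m → ℕ := fun i => f (i, e i 0, none)
  let d : Fin m → ZMod 2 := fun i => if f (i, e i 0, none) < f (i, e i 2, none) then 0 else 1
  have hent : ∀ x y : Fin m × Option (Fin m),
      M (x.1, e x.1 1, x.2) (y.1, e y.1 2, y.2) = Pm (hf L) d x.1 y.1 + cv y.2 x.1 + cv x.2 y.1 +
        cv x.2 ⬝ᵥ (Qm g) *ᵥ cv y.2 := by
    rintro ⟨i, c⟩ ⟨i', c'⟩
    have hne : ((i, e i 1, c) : DV m N) ≠ (i', e i' 2, c') := by
      intro h
      simp only [Prod.mk.injEq] at h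
      obtain ⟨h1, h2, -⟩ := h
      subst h1
      exact absurd h2 (ne_of_lt (he1 i (by decide)))
    have hne' : f (i, e i 1, c) ≠ f (i', e i' 2, c') := fun h => hne (hA.1 h)
    rw [adm_entry hinj (phi_symm g) hA hne]
    have hphi2 : phi N g (i, e i 1, c) (i', e i' 2, c') =
      cv c' i + cv c i' + cv c ⬝ᵥ (Qm g) *ᵥ cv c' := rfl
    rw [hphi2]
    have hZ : (if (pos (i, e i 1, c) < pos (i', e i' 2, c') ∧ f (i', e i' 2, c') < f (i, e i 1, c)) ∨
        (pos (i', e i' 2, c') < pos (i, e i 1, c) ∧ f (i, e i 1, c) < f (i', e i' 2, c'))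
        then (1 : ZMod 2) else 0) = Pm (hf L) d i i' := by
      by_cases hii : i = i'
      · subst hii
        have hp : pos (i, e i 1, c) < pos (i, e i 2, c') := hP2 _ _ rfl (he1 i (by decide))
        have hs := hsame i c c'
        simp only [Pm, if_true, d]
        by_cases hq : f (i, e i 0, none) < f (i, e i 2, none)
        · rw [if_pos hq, if_neg]
          have := hs.2 hq
          omega
        · rw [if_neg hq, if_pos]
          have : ¬ f (i, e i 1, c) < f (i, e i 2, c') := fun h => hq (hs.1 h)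
          omega
      · have hd := hdiff i i' c c' hii
        simp only [Pm, hii, if_false, hf_lt, L]
        have hLne : f (i, e i 0, none) ≠ f (i', e i' 0, none) := by
          intro h
          have := hA.1 h
          simp only [Prod.mk.injEq] at this
          exact hii this.1
        rcases lt_or_gt_of_ne hii with h | h
        · have hp : pos (i, e i 1, c) < pos (i', e i' 2, c') := hP1 _ _ h
          have hp' : ¬ pos (i', e i' 2, c') < pos (i, e i 1, c) := by omega
          have h' : ¬ i' < i := not_lt.2 h.le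
          simp only [hp, hp', h, h', true_and, false_and, or_false]
          by_cases hq : f (i, e i 0, none) < f (i', e i' 0, none)
          · have := hd.2 hq
            rw [if_neg (by omega), if_neg (by omega)]
          · have : ¬ f (i, e i 1, c) < f (i', e i' 2, c') := fun h => hq (hd.1 h)
            rw [if_pos (by omega), if_pos (by omega)]
        · have hp : pos (i', e i' 2, c') < pos (i, e i 1, c) := hP1 _ _ h
          have hp' : ¬ pos (i, e i 1, c) < pos (i', e i' 2, c') := by omega
          have h' : ¬ i < i' := not_lt.2 h.le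
          simp only [hp, hp', h, h', true_and, false_and, false_or]
          by_cases hq : f (i, e i 0, none) < f (i', e i' 0, none)
          · have := hd.2 hq
            rw [if_pos (by omega), if_pos (by omega)]
          · have : ¬ f (i, e i 1, c) < f (i', e i' 2, c') := fun h => hq (hd.1 h)
            rw [if_neg (by omega), if_neg (by omega)]
    rw [hZ]
    ring
  exact hcon (block_rank (Qm g) (Pm (hf L) d) M (fun x => (x.1, e x.1 1, x.2))
    (fun x => (x.1, e x.1 2, x.2)) hent (hgood (hf L) d))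

end Pool.Agent.V11127.Dj
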