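import Pool.Agent.V11127.DjGram

/-!
Every tournament of large minimum rank contains a subtournament of large minimum rank whose
inversion number equals its minimum rank.
-/

namespace Pool.Agent.V11127.Dj

open Matrix Module

lemma FamOK_of_adm {V ι : Type} [Fintype ι] {A : V → V → Prop} (hA : IsTour A)
    {X : ι → V → ZMod 2} {f : V → ℕ} (h : Adm A f (gram X)) : FamOK A X f := by
  intro u v huv
  have h0 : A u v ∨ A v u := by
    rcases huv with h1 | h1
    · exact Or.inl h1.1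
    · exact Or.inr h1.1
  have hne : u ≠ v := by
    rintro rfl
    exact hA.1 _ (h0.elim id id)
  have h1 := h.2.2 u v hne
  have h2 : f u ≠ f v := fun e => hne (h.1 e)
  have h3 := hA.2 u v hne
  rcases huv with ⟨h4, h5⟩ | ⟨h4, h5⟩
  · by_contra hcon
    have h6 : gram X u v = 1 := h1.2 (Or.inl ⟨h4, by omega⟩)
    have h7 : gram X u v = 0 := h5
    rw [h6] at h7
    exact absurd h7 (by decide)
  · rcases h1.1 h5 with h6 | h6
    · exact absurd h4 (h3.1 h6.1)
    · exact h6.2

/-- The minimum rank of `A` is `ρ` and it is attained by a matrix with a nonzero diagonal entry. -/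
def Good {V : Type} [Fintype V] (A : V → V → Prop) (ρ : ℕ) : Prop :=
  (∀ f M, Adm A f M → ρ ≤ M.rank) ∧ ∃ f M, Adm A f M ∧ M.rank = ρ ∧ ∃ u, M u u = 1

/-- The set of ranks of admissible matrices. -/
def TmrSet {V : Type} [Fintype V] (A : V → V → Prop) : Set ℕ :=
  {r | ∃ f M, Adm A f M ∧ M.rank = r}

lemma Good.tmr {V : Type} [Fintype V] {A : V → V → Prop} {ρ : ℕ} (h : Good A ρ) :
    sInf (TmrSet A) = ρ := by
  obtain ⟨h1, f, M, h2, h3, -⟩ := h
  apply le_antisymm
  · exact Nat.sInf_le ⟨f, M, h2, h3⟩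
  · refine le_csInf ⟨ρ, f, M, h2, h3⟩ ?_
    rintro r ⟨f, M, h4, rfl⟩
    exact h1 f M h4

lemma Good.inv {V : Type} [Fintype V] {A : V → V → Prop} (hA : IsTour A) {ρ : ℕ} (h : Good A ρ) :
    sInf (InvSet A) = ρ := by
  obtain ⟨h1, f, M, h2, h3, h4⟩ := h
  have hs : ∀ u v, M u v = M v u := fun u v => congrFun (congrFun h2.2.1 v) u
  obtain ⟨X, hX⟩ := diag_gram ρ M hs h4 h3
  have hρ : ρ ∈ InvSet A := ⟨X, f, FamOK_of_adm hA (by rw [hX]; exact h2)⟩
  apply le_antisymm
  · exact Nat.sInf_le hρ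
  · refine le_csInf ⟨ρ, hρ⟩ ?_
    rintro r ⟨X, f, h5⟩
    exact (h1 f _ (gram_adm hA h5)).trans (gram_rank X)

/-- The bordered matrix. -/
def bord {k : ℕ} (x : Fin k → ZMod 2) (M : Matrix (Fin k) (Fin k) (ZMod 2)) :
    Matrix (Fin (k + 1)) (Fin (k + 1)) (ZMod 2) :=
  fun u v => Fin.cases (Fin.cases 1 (fun j => x j) v)
    (fun i => Fin.cases (x i) (fun j => M i j) v) u

lemma bord_rank {k : ℕ} (x : Fin k → ZMod 2) (M : Matrix (Fin k) (Fin k) (ZMod 2)) :
    (bord x M).rank ≤ M.rank + 2 := by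
  let P : Matrix (Fin (k + 1)) (Fin k) (ZMod 2) := fun u i => if u = i.succ then 1 else 0
  have h : bord x M = P * M * Pᵀ + vecMulVec (Pi.single 0 1) (fun v => Fin.cases 1 x v) +
      vecMulVec (fun u => Fin.cases 0 x u) (Pi.single 0 1) := by
    ext u v
    simp only [Matrix.add_apply, Matrix.mul_apply, Matrix.transpose_apply, vecMulVec_apply, P]
    refine Fin.cases ?_ (fun i => ?_) u <;> refine Fin.cases ?_ (fun j => ?_) v
    · simp [bord, (Fin.succ_ne_zero _).symm]
    · simp [bord, (Fin.succ_ne_zero _).symm]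
    · simp [bord, (Fin.succ_ne_zero _).symm]
    · simp [bord]
  rw [h]
  have h1 := rank_add_le2 (P * M * Pᵀ + vecMulVec (Pi.single 0 1) (fun v => Fin.cases 1 x v))
    (vecMulVec (fun u => Fin.cases 0 x u) (Pi.single 0 1))
  have h2 := rank_add_le2 (P * M * Pᵀ) (vecMulVec (Pi.single 0 1) (fun v => Fin.cases 1 x v))
  have h3 : (P * M * Pᵀ).rank ≤ M.rank :=
    (Matrix.rank_mul_le_left _ _).trans (Matrix.rank_mul_le_right _ _)
  have h4 := Matrix.rank_vecMulVec_le (Pi.single 0 1 : Fin (k + 1) → ZMod 2)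
    (fun v => Fin.cases 1 x v)
  have h5 := Matrix.rank_vecMulVec_le (fun u => Fin.cases 0 x u)
    (Pi.single 0 1 : Fin (k + 1) → ZMod 2)
  omega

lemma bord_adm {k : ℕ} {B : Fin (k + 1) → Fin (k + 1) → Prop} (hB : IsTour B) {f : Fin k → ℕ}
    {M : Matrix (Fin k) (Fin k) (ZMod 2)} (h : Adm (fun i j => B i.succ j.succ) f M) :
    ∃ f' M', Adm B f' M' ∧ M'.rank ≤ M.rank + 2 ∧ ∃ u, M' u u = 1 := by
  classical
  let x : Fin k → ZMod 2 := fun i => if B i.succ 0 then 1 else 0
  have hx : ∀ i, x i = 1 ↔ B i.succ 0 := by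
    intro i
    by_cases h1 : B i.succ 0 <;> simp [x, h1]
  refine ⟨Fin.cons 0 (fun i => f i + 1), bord x M, ⟨?_, ?_, ?_⟩, bord_rank x M, 0, rfl⟩
  · intro u v
    refine Fin.cases ?_ (fun i => ?_) u <;> refine Fin.cases ?_ (fun j => ?_) v
    · intro _; rfl
    · intro h1
      simp at h1
    · intro h1
      simp at h1
    · intro h1
      simp only [Fin.cons_succ] at h1
      rw [h.1 (Nat.succ_injective h1)]
  · ext u v
    rw [Matrix.transpose_apply]
    refine Fin.cases ?_ (fun i => ?_) u <;> refine Fin.cases ?_ (fun j => ?_) v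
    · rfl
    · rfl
    · rfl
    · exact congrFun (congrFun h.2.1 i) j
  · intro u v
    refine Fin.cases ?_ (fun i => ?_) u <;> refine Fin.cases ?_ (fun j => ?_) v
    · intro h1; exact absurd rfl h1
    · intro _
      change x j = 1 ↔ _
      rw [hx]
      simp
    · intro _
      change x i = 1 ↔ _
      rw [hx]
      simp
    · intro h1
      have h2 := h.2.2 i j (fun e => h1 (by rw [e]))
      change M i j = 1 ↔ _
      rw [h2]
      simp

theorem select {n : ℕ} (A : Fin n → Fin n → Prop) (hA : IsTour A) (L : ℕ) (hL : Even L)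
    (hL0 : 0 < L) (h : ∀ f M, Adm A f M → L ≤ M.rank) :
    ∃ (n' : ℕ) (σ : Fin n' → Fin n) (ρ : ℕ), Function.Injective σ ∧ L ≤ ρ + 1 ∧
      Good (fun i j => A (σ i) (σ j)) ρ := by
  classical
  have hT : ∀ (n' : ℕ) (σ : Fin n' → Fin n), Function.Injective σ →
      IsTour (fun i j => A (σ i) (σ j)) := fun n' σ hσ =>
    ⟨fun u => hA.1 _, fun u v huv => hA.2 _ _ fun e => huv (hσ e)⟩
  let P : ℕ → Prop := fun n' => ∃ σ : Fin n' → Fin n, Function.Injective σ ∧
    ∀ f M, Adm (fun i j => A (σ i) (σ j)) f M → L ≤ M.rank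
  have hP : ∃ n', P n' := ⟨n, id, Function.injective_id, h⟩
  obtain ⟨σ, hσ, h1⟩ := Nat.find_spec hP
  have hmin : ∀ m, m < Nat.find hP → ¬ P m := fun m hm => Nat.find_min hP hm
  generalize Nat.find hP = n' at σ hσ h1 hmin
  rcases n' with _ | k
  · exfalso
    have := h1 (fun _ => 0) 0 ⟨fun u => u.elim0, by ext u; exact u.elim0, fun u => u.elim0⟩
    rw [Matrix.rank_zero] at this
    omega
  · have h2 := hmin k (Nat.lt_succ_self k)
    have hσ' : Function.Injective (fun i : Fin k => σ i.succ) :=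
      hσ.comp (Fin.succ_injective k)
    by_cases hcase : ∃ f M, Adm (fun i j : Fin k => A (σ i.succ) (σ j.succ)) f M ∧ M.rank + 2 ≤ L
    · obtain ⟨f, M, h3, h4⟩ := hcase
      obtain ⟨f', M', h5, h6, h7⟩ := bord_adm (hT _ σ hσ) h3
      refine ⟨k + 1, σ, L, hσ, by omega, h1, f', M', h5, ?_, h7⟩
      have := h1 f' M' h5
      omega
    · have h3 : ∃ f M, Adm (fun i j : Fin k => A (σ i.succ) (σ j.succ)) f M ∧ M.rank < L := by
        by_contra hcon
        push Not at hcon
        exact h2 ⟨fun i => σ i.succ, hσ', hcon⟩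
      obtain ⟨f, M, h4, h5⟩ := h3
      have h6 : ∀ f M, Adm (fun i j : Fin k => A (σ i.succ) (σ j.succ)) f M → L - 1 ≤ M.rank := by
        intro f M hM
        by_contra hcon
        exact hcase ⟨f, M, hM, by omega⟩
      have h7 := h6 f M h4
      refine ⟨k, fun i => σ i.succ, L - 1, hσ', by omega, h6, f, M, h4, by omega, ?_⟩
      by_contra hcon
      have h8 : ∀ u, M u u = 0 := by
        intro u
        rcases zmod2 (M u u) with h9 | h9
        · exact h9
        · exact absurd ⟨u, h9⟩ hcon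
      have h9 := (alt_gram (L - 1) M (fun u v => congrFun (congrFun h4.2.1 v) u) h8 (by omega)).1
      obtain ⟨a, ha⟩ := hL
      obtain ⟨b, hb⟩ := h9
      omega

lemma finfam {V : Type} [DecidableEq V] [Fintype V] (A : V → V → Prop) (k : ℕ) :
    (∃ X : Fin k → Finset V, ∃ f : V → ℕ, ∀ u v : V,
        ((A u v ∧ Even (Finset.univ.filter (fun i => u ∈ X i ∧ v ∈ X i)).card) ∨
         (A v u ∧ Odd (Finset.univ.filter (fun i => u ∈ X i ∧ v ∈ X i)).card)) → f u < f v) ↔
      k ∈ InvSet A := by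
  have key : ∀ (x : Fin k → V → ZMod 2) (X : Fin k → Finset V)
      (_ : ∀ j v, x j v = if v ∈ X j then 1 else 0) (u v : V),
      (((Finset.univ.filter (fun i => u ∈ X i ∧ v ∈ X i)).card : ℕ) : ZMod 2) =
        ∑ j, x j u * x j v := by
    intro x X hx u v
    rw [Finset.card_filter, Nat.cast_sum]
    refine Finset.sum_congr rfl fun j _ => ?_
    rw [hx, hx]
    by_cases h1 : u ∈ X j <;> by_cases h2 : v ∈ X j <;> simp [h1, h2]
  have key2 : ∀ (x : Fin k → V → ZMod 2) (X : Fin k → Finset V)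
      (_ : ∀ j v, x j v = if v ∈ X j then 1 else 0) (f : V → ℕ),
      (∀ u v : V,
        ((A u v ∧ Even (Finset.univ.filter (fun i => u ∈ X i ∧ v ∈ X i)).card) ∨
         (A v u ∧ Odd (Finset.univ.filter (fun i => u ∈ X i ∧ v ∈ X i)).card)) → f u < f v) ↔
      FamOK A x f := by
    intro x X hx f
    unfold FamOK
    refine forall_congr' fun u => forall_congr' fun v => ?_
    rw [← key x X hx u v, ZMod.natCast_eq_zero_iff_even, ZMod.natCast_eq_one_iff_odd]
  constructor
  · rintro ⟨X, f, h⟩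
    exact ⟨fun j v => if v ∈ X j then 1 else 0, f, (key2 _ X (fun _ _ => rfl) f).1 h⟩
  · rintro ⟨x, f, h⟩
    refine ⟨fun j => Finset.univ.filter fun v => x j v = 1, f, (key2 x _ ?_ f).2 h⟩
    intro j v
    rcases zmod2 (x j v) with h1 | h1 <;> simp [h1]

end Pool.Agent.V11127.Dj
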