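import Pool.Agent.V11127.DjLower

/-!
The decycling family of the dijoin, and the core statement.
-/

namespace Pool.Agent.V11127.Dj

open Matrix Module

/-- tournaments as relations -/
def IsTour {V : Type} (A : V → V → Prop) : Prop :=
  (∀ u, ¬ A u u) ∧ ∀ u v, u ≠ v → (A u v ↔ ¬ A v u)

/-- the family `X` decycles the relation `A`, as witnessed by the potential `f` -/
def FamOK {V ι : Type} [Fintype ι] (A : V → V → Prop) (X : ι → V → ZMod 2) (f : V → ℕ) : Prop :=
  ∀ u v, ((A u v ∧ ∑ i, X i u * X i v = 0) ∨ (A v u ∧ ∑ i, X i u * X i v = 1)) → f u < f v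

lemma Tr_isTour {V : Type} {pos : V → ℕ} {M0 : V → V → ZMod 2} (hpos : Function.Injective pos)
    (hs : ∀ u v, M0 u v = M0 v u) : IsTour (Tr pos M0) := by
  constructor
  · rintro u (h | h) <;> exact lt_irrefl _ h.1
  · intro u v huv
    have h2 : pos u ≠ pos v := fun e => huv (hpos e)
    unfold Tr
    rw [hs v u]
    rcases zmod2 (M0 u v) with h | h <;> rw [h] <;> simp <;> omega

/-- columns `t_j` -/
def Tm (m : ℕ) : Matrix (Fin m) (Fin m) (ZMod 2) := fun i j => if j ≤ i then 1 else 0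

lemma Tm_det (m : ℕ) : (Tm m).det = 1 := by
  rw [Matrix.det_of_isLowerTriangular]
  · simp [Tm]
  · intro i j hij
    have h : ¬ j ≤ i := by
      intro h
      exact absurd hij (not_lt.2 h)
    simp [Tm, h]

/-- The strictly upper triangular part. -/
def Um {m : ℕ} (g : Sym2 (Fin m) → ZMod 2) : Matrix (Fin m) (Fin m) (ZMod 2) :=
  fun i j => if i < j then Qm g i j else 0

lemma Qm_eq {m : ℕ} (g : Sym2 (Fin m) → ZMod 2) : Qm g = Um g + (Um g)ᵀ + 1 := by
  ext i j
  simp only [Matrix.add_apply, Matrix.transpose_apply, Um, Matrix.one_apply]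
  rcases lt_trichotomy i j with h | h | h
  · have h1 : ¬ j < i := not_lt.2 h.le
    simp [h, h1, h.ne]
  · subst h
    simp [Qm]
  · have h1 : ¬ i < j := not_lt.2 h.le
    simp [h, h1, h.ne', Qm_symm g i j]

/-- the vectors `y` -/
def yv {m N : ℕ} : DV m N ⊕ Fin m → Fin m → ZMod 2
  | Sum.inl u => cv u.2.2
  | Sum.inr j => fun i => Tm m i j

/-- the vectors `z` -/
def zv {m N : ℕ} (g : Sym2 (Fin m) → ZMod 2) : DV m N ⊕ Fin m → Fin m → ZMod 2
  | Sum.inl u => Pi.single u.1 1 + (Um g) *ᵥ cv u.2.2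
  | Sum.inr j => (fun i => Tm m i j) + (Um g)ᵀ *ᵥ (fun i => Tm m i j)

/-- the family -/
def fam {m N : ℕ} (g : Sym2 (Fin m) → ZMod 2) (s : Fin m ⊕ Fin m) (u : DV m N ⊕ Fin m) : ZMod 2 :=
  Sum.elim (fun i => zv g u i + yv u i) (fun i => zv g u i) s

lemma fam_gram {m N : ℕ} (g : Sym2 (Fin m) → ZMod 2) (u v : DV m N ⊕ Fin m) :
    ∑ s, fam g s u * fam g s v = zv g u ⬝ᵥ yv v + yv u ⬝ᵥ zv g v + yv u ⬝ᵥ yv v := by
  rw [Fintype.sum_sum_type]
  simp only [fam, Sum.elim_inl, Sum.elim_inr, dotProduct]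
  rw [← Finset.sum_add_distrib, ← Finset.sum_add_distrib, ← Finset.sum_add_distrib]
  refine Finset.sum_congr rfl fun i _ => ?_
  have : ∀ a b c d : ZMod 2, (a + b) * (c + d) + a * c = a * d + b * c + b * d := by decide
  exact this _ _ _ _

lemma mulVec_dot {m : ℕ} (A : Matrix (Fin m) (Fin m) (ZMod 2)) (x y : Fin m → ZMod 2) :
    (A *ᵥ x) ⬝ᵥ y = x ⬝ᵥ Aᵀ *ᵥ y := by
  rw [Matrix.dotProduct_mulVec, Matrix.vecMul_transpose]

lemma fam_ll {m N : ℕ} (g : Sym2 (Fin m) → ZMod 2) (u v : DV m N) :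
    ∑ s, fam g s (Sum.inl u) * fam g s (Sum.inl v) = phi N g u v := by
  rw [fam_gram]
  simp only [zv, yv, phi, Qm_eq]
  rw [add_dotProduct, dotProduct_add, mulVec_dot, Matrix.add_mulVec, Matrix.add_mulVec,
    Matrix.one_mulVec, dotProduct_add, dotProduct_add, single_one_dotProduct,
    dotProduct_single_one]
  ring

lemma fam_lr {m N : ℕ} (g : Sym2 (Fin m) → ZMod 2) (u : DV m N) (j : Fin m) :
    ∑ s, fam g s (Sum.inl u) * fam (N := N) g s (Sum.inr j) = if j ≤ u.1 then 1 else 0 := by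
  rw [fam_gram]
  simp only [zv, yv]
  rw [add_dotProduct, dotProduct_add, mulVec_dot, single_one_dotProduct]
  have : ∀ a b c : ZMod 2, a + b + (c + b) + c = a := by decide
  rw [this]
  rfl

lemma fam_rr {m N : ℕ} (g : Sym2 (Fin m) → ZMod 2) (j k : Fin m) :
    ∑ s, fam (N := N) g s (Sum.inr j) * fam (N := N) g s (Sum.inr k) =
      ((Tm m)ᵀ * Qm g * Tm m) j k := by
  rw [fam_gram]
  have h1 : ((Tm m)ᵀ * Qm g * Tm m) j k =
      (fun i => Tm m i j) ⬝ᵥ (Qm g) *ᵥ (fun i => Tm m i k) := by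
    rw [Matrix.mul_assoc, Matrix.mul_apply]
    simp only [Matrix.transpose_apply, dotProduct, Matrix.mul_apply, Matrix.mulVec]
  rw [h1, Qm_eq]
  simp only [zv, yv]
  rw [add_dotProduct, dotProduct_add, mulVec_dot, Matrix.transpose_transpose, Matrix.add_mulVec,
    Matrix.add_mulVec, Matrix.one_mulVec, dotProduct_add, dotProduct_add]
  have : ∀ a b c : ZMod 2, a + b + (a + c) + a = b + c + a := by decide
  exact this _ _ _

/-- code of an element of `Option (Fin m)` -/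
def code {m : ℕ} : Option (Fin m) → ℕ
  | none => 0
  | some j => j + 1

lemma code_lt {m : ℕ} (c : Option (Fin m)) : code c < m + 2 := by
  rcases c with _ | j
  · simp [code]
  · have := j.2
    simp only [code]
    omega

lemma code_inj {m : ℕ} (c c' : Option (Fin m)) (h : code c = code c') : c = c' := by
  rcases c with _ | j <;> rcases c' with _ | j' <;> simp [code] at h ⊢
  exact Fin.ext h

lemma lexlt {a a' b b' B : ℕ} (h : a < a') (hb : b < B) : a * B + b < a' * B + b' := by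
  have : (a + 1) * B ≤ a' * B := Nat.mul_le_mul_right _ h
  rw [Nat.add_mul, Nat.one_mul] at this
  omega

/-- position in the large tournament -/
def dpos {m N : ℕ} (u : DV m N) : ℕ :=
  (u.1.val * (N + 1) + (u.2.1.val + 1)) * (m + 2) + code u.2.2

/-- position of the vertices of the small tournament -/
def rpos {m : ℕ} (N : ℕ) (j : Fin m) : ℕ := (j.val * (N + 1) + 0) * (m + 2) + 0

lemma dpos1 {m N : ℕ} (u v : DV m N) (h : u.1 < v.1) : dpos u < dpos v := by
  have h1 := u.2.1.2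
  exact lexlt (lexlt h (by omega)) (code_lt _)

lemma dpos2 {m N : ℕ} (u v : DV m N) (h : u.1 = v.1) (h' : u.2.1 < v.2.1) : dpos u < dpos v := by
  have h1 : u.2.1.val < v.2.1.val := h'
  refine lexlt ?_ (code_lt _)
  rw [h]
  omega

lemma dpos_inj {m N : ℕ} : Function.Injective (dpos : DV m N → ℕ) := by
  rintro u v h
  have h1 : u.1 = v.1 := by
    rcases lt_trichotomy u.1 v.1 with h2 | h2 | h2
    · have := dpos1 u v h2
      omega
    · exact h2
    · have := dpos1 v u h2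
      omega
  have h2 : u.2.1 = v.2.1 := by
    rcases lt_trichotomy u.2.1 v.2.1 with h2 | h2 | h2
    · have := dpos2 u v h1 h2
      omega
    · exact h2
    · have := dpos2 v u h1.symm h2
      omega
  have h3 : u.2.2 = v.2.2 := by
    apply code_inj
    unfold dpos at h
    rw [h1, h2] at h
    omega
  exact Prod.ext h1 (Prod.ext h2 h3)

lemma rpos_lt {m : ℕ} (N : ℕ) {j k : Fin m} (h : j < k) : rpos N j < rpos N k :=
  lexlt (lexlt h (by omega)) (by omega)

lemma rd_lt {m N : ℕ} {j : Fin m} {u : DV m N} (h : j ≤ u.1) : rpos N j < dpos u := by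
  refine lexlt ?_ (by omega)
  have : j.val * (N + 1) ≤ u.1.val * (N + 1) := Nat.mul_le_mul_right _ h
  omega

lemma dr_lt {m N : ℕ} {j : Fin m} {u : DV m N} (h : ¬ j ≤ u.1) : dpos u < rpos N j := by
  have h1 := u.2.1.2
  exact lexlt (lexlt (not_le.1 h) (by omega)) (code_lt _)

/-- The family decycles the dijoin. -/
theorem fam_ok {m N : ℕ} (g : Sym2 (Fin m) → ZMod 2) :
    FamOK (Sum.Lex (Tr (dpos : DV m N → ℕ) (phi N g))
      (Tr (fun i : Fin m => (i : ℕ)) (fun i j => ((Tm m)ᵀ * Qm g * Tm m) i j)))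
      (fam g) (Sum.elim dpos (rpos N)) := by
  intro u v h
  rcases u with u | u <;> rcases v with v | v
  · rw [fam_ll, Sum.lex_inl_inl, Sum.lex_inl_inl] at h
    rcases h with ⟨h | h, h'⟩ | ⟨h | h, h'⟩
    · exact h.1
    · rw [h'] at h
      exact absurd h.2 (by decide)
    · rw [phi_symm, h'] at h
      exact absurd h.2 (by decide)
    · exact h.1
  · rw [fam_lr] at h
    rcases h with ⟨h, h'⟩ | ⟨h, h'⟩
    · by_cases hle : v ≤ u.1
      · rw [if_pos hle] at h'
        exact absurd h' (by decide)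
      · exact dr_lt hle
    · exact absurd h Sum.lex_inr_inl
  · have e : ∑ s, fam (N := N) g s (Sum.inr u) * fam g s (Sum.inl v) =
        ∑ s, fam (N := N) g s (Sum.inl v) * fam g s (Sum.inr u) :=
      Finset.sum_congr rfl fun s _ => mul_comm _ _
    rw [e, fam_lr] at h
    rcases h with ⟨h, h'⟩ | ⟨h, h'⟩
    · exact absurd h Sum.lex_inr_inl
    · by_cases hle : u ≤ v.1
      · exact rd_lt hle
      · rw [if_neg hle] at h'
        exact absurd h' (by decide)
  · rw [fam_rr, Sum.lex_inr_inr, Sum.lex_inr_inr] at h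
    have hs : ((Tm m)ᵀ * Qm g * Tm m) v u = ((Tm m)ᵀ * Qm g * Tm m) u v := by
      have : ((Tm m)ᵀ * Qm g * Tm m)ᵀ = (Tm m)ᵀ * Qm g * Tm m := by
        rw [Matrix.transpose_mul, Matrix.transpose_mul, Matrix.transpose_transpose, Qm_transpose,
          Matrix.mul_assoc]
      exact (congrFun (congrFun this u) v)
    rcases h with ⟨h | h, h'⟩ | ⟨h | h, h'⟩
    · exact rpos_lt N h.1
    · exact absurd (h'.symm.trans h.2) (by decide)
    · exact absurd ((hs.trans h').symm.trans h.2) (by decide)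
    · exact rpos_lt N h.1

lemma FamOK.pull {V W ι : Type} [Fintype ι] {A : V → V → Prop} {B : W → W → Prop}
    {X : ι → V → ZMod 2} {f : V → ℕ} (h : FamOK A X f) (σ : W → V)
    (hσ : ∀ u v, B u v → A (σ u) (σ v)) : FamOK B (fun i w => X i (σ w)) (fun w => f (σ w)) := by
  intro u v huv
  apply h
  rcases huv with ⟨h1, h2⟩ | ⟨h1, h2⟩
  · exact Or.inl ⟨hσ _ _ h1, h2⟩
  · exact Or.inr ⟨hσ _ _ h1, h2⟩

lemma FamOK.reindex {V ι κ : Type} [Fintype ι] [Fintype κ] {A : V → V → Prop}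
    {X : ι → V → ZMod 2} {f : V → ℕ} (h : FamOK A X f) (e : κ ≃ ι) :
    FamOK A (fun i w => X (e i) w) f := by
  intro u v huv
  apply h
  rw [Equiv.sum_comp e (fun i => X i u * X i v)] at huv
  exact huv

lemma numeric (k m a c1 c2 : ℕ) (hm : m = 2 ^ k)
    (h : k * m + m + 1 + (m * a + (c1 + m)) < c2 + a * (a - 1)) :
    m ^ m * 2 ^ m * 2 * (2 ^ (m * a) * 2 ^ (c1 + m)) < 2 ^ c2 * 2 ^ (a * (a - 1)) := by
  have e1 : m ^ m = 2 ^ (k * m) := by
    calc m ^ m = (2 ^ k) ^ m := by rw [← hm]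
      _ = _ := by rw [pow_mul]
  have e2 : m ^ m * 2 ^ m * 2 * (2 ^ (m * a) * 2 ^ (c1 + m)) =
      2 ^ (k * m + m + 1 + (m * a + (c1 + m))) := by
    rw [e1, pow_add 2 (k * m + m + 1) (m * a + (c1 + m)), pow_add 2 (k * m + m) 1,
      pow_add 2 (k * m) m, pow_one, pow_add 2 (m * a) (c1 + m)]
  rw [e2, ← pow_add]
  exact Nat.pow_lt_pow_right (by norm_num) h

theorem exists_good' {k m a : ℕ} (A S : Matrix (Fin m) (Fin m) (ZMod 2))
    (hA : ∀ w, A *ᵥ w = 0 → w = 0) (hm : m = 2 ^ k)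
    (h : k * m + m + 1 + (m * a + (Nat.choose (m - a + 1) 2 + m)) <
      Nat.choose (m + 1) 2 + a * (a - 1)) :
    ∃ g : Sym2 (Fin m) → ZMod 2, ∀ h d,
      finrank (ZMod 2) (LinearMap.ker (1 - Qm g * Pm h d).mulVecLin) < a ∧
      finrank (ZMod 2) (LinearMap.ker (S * Pm h d - Qm g * A).mulVecLin) < a :=
  exists_good A S hA (numeric k m a _ _ hm h)

/-- The general form of the core statement. -/
theorem core_gen (k m a : ℕ) (hm : m = 2 ^ k)
    (h : k * m + m + 1 + (m * a + (Nat.choose (m - a + 1) 2 + m)) <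
      Nat.choose (m + 1) 2 + a * (a - 1)) : ∃ (n₁ n₂ : ℕ) (A : Fin n₁ → Fin n₁ → Prop) (B : Fin n₂ → Fin n₂ → Prop),
    IsTour A ∧ IsTour B ∧
    (∃ (X : Fin (m + m) → Fin n₁ ⊕ Fin n₂ → ZMod 2) (f : Fin n₁ ⊕ Fin n₂ → ℕ),
      FamOK (Sum.Lex A B) X f) ∧
    (∀ f M, Adm A f M → 2 * m < M.rank + a) ∧ (∀ f M, Adm B f M → m < M.rank + a) := by
  have hinv : ((Tm m)ᵀ)⁻¹ * (Tm m)ᵀ = 1 := by
    apply Matrix.nonsing_inv_mul
    rw [Matrix.det_transpose, Tm_det]
    exact isUnit_one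
  have hTinj : ∀ w, (Tm m) *ᵥ w = 0 → w = 0 := by
    intro w hw
    have h1 : (Tm m)⁻¹ * Tm m = 1 := by
      apply Matrix.nonsing_inv_mul
      rw [Tm_det]
      exact isUnit_one
    calc w = ((Tm m)⁻¹ * Tm m) *ᵥ w := by rw [h1, Matrix.one_mulVec]
      _ = 0 := by rw [← Matrix.mulVec_mulVec, hw, Matrix.mulVec_zero]
  obtain ⟨g, hg⟩ := exists_good' (k := k) (m := m) (a := a) (Tm m) ((Tm m)ᵀ)⁻¹ hTinj hm h
  obtain ⟨N, hN⟩ : ∃ N, 3 * 2 ^ (2 * m * (m + 1)) < N := ⟨_, Nat.lt_succ_self _⟩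
  have hTs : ∀ i j, ((Tm m)ᵀ * Qm g * Tm m) i j = ((Tm m)ᵀ * Qm g * Tm m) j i := by
    intro i j
    have : ((Tm m)ᵀ * Qm g * Tm m)ᵀ = (Tm m)ᵀ * Qm g * Tm m := by
      rw [Matrix.transpose_mul, Matrix.transpose_mul, Matrix.transpose_transpose, Qm_transpose,
        Matrix.mul_assoc]
    exact (congrFun (congrFun this j) i)
  let e := (Fintype.equivFin (DV m N)).symm
  refine ⟨Fintype.card (DV m N), m, fun i j => Tr dpos (phi N g) (e i) (e j),
    Tr (fun i : Fin m => (i : ℕ)) (fun i j => ((Tm m)ᵀ * Qm g * Tm m) i j), ?_, ?_, ?_, ?_, ?_⟩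
  · have h := Tr_isTour (dpos_inj (m := m) (N := N)) (phi_symm g)
    exact ⟨fun u => h.1 _, fun u v huv => h.2 _ _ (fun h' => huv (e.injective h'))⟩
  · exact Tr_isTour (fun a b h => Fin.ext h) hTs
  · have h1 := (fam_ok (m := m) (N := N) g).reindex (finSumFinEquiv (m := m) (n := m)).symm
    have h2 := h1.pull (B := Sum.Lex (fun i j => Tr dpos (phi N g) (e i) (e j))
      (Tr (fun i : Fin m => (i : ℕ)) (fun i j => ((Tm m)ᵀ * Qm g * Tm m) i j)))
      (Sum.map e id) (by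
        rintro (u | u) (v | v) h
        · rw [Sum.lex_inl_inl] at h
          exact Sum.Lex.inl h
        · exact Sum.Lex.sep _ _
        · exact absurd h Sum.lex_inr_inl
        · rw [Sum.lex_inr_inr] at h
          exact Sum.Lex.inr h)
    exact ⟨_, _, h2⟩
  · intro f M hA
    have h1 : Adm (Tr dpos (phi N g)) (fun v => f (e.symm v)) (M.submatrix e.symm e.symm) := by
      refine ⟨hA.1.comp e.symm.injective, ?_, ?_⟩
      · ext i j
        have := congrFun (congrFun hA.2.1 (e.symm i)) (e.symm j)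
        simpa using this
      · intro u v huv
        have := hA.2.2 (e.symm u) (e.symm v) (fun h => huv (e.symm.injective h))
        simpa using this
    have h2 := lowD (a := a) g dpos dpos_inj dpos1 dpos2 hN (fun h d => (hg h d).1) _ _ h1
    have h3 : (M.submatrix e.symm e.symm).rank = M.rank := Matrix.rank_submatrix M _ _
    rw [h3] at h2
    exact h2
  · intro f M hA
    have h2 := lowR (a := a) g (Tm m) ((Tm m)ᵀ)⁻¹ hinv (fun h d => (hg h d).2) f M hA
    exact h2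

/-- The core statement. -/
theorem core : ∃ (n₁ n₂ : ℕ) (A : Fin n₁ → Fin n₁ → Prop) (B : Fin n₂ → Fin n₂ → Prop),
    IsTour A ∧ IsTour B ∧
    (∃ (X : Fin 512 → Fin n₁ ⊕ Fin n₂ → ZMod 2) (f : Fin n₁ ⊕ Fin n₂ → ℕ),
      FamOK (Sum.Lex A B) X f) ∧
    (∀ f M, Adm A f M → 413 ≤ M.rank) ∧ (∀ f M, Adm B f M → 157 ≤ M.rank) := by
  obtain ⟨n₁, n₂, A, B, hA, hB, hX, h1, h2⟩ := core_gen 8 256 100 (by norm_num)
    (by rw [Nat.choose_two_right, Nat.choose_two_right]; norm_num)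
  refine ⟨n₁, n₂, A, B, hA, hB, hX, ?_, ?_⟩
  · intro f M hM
    have := h1 f M hM
    omega
  · intro f M hM
    have := h2 f M hM
    omega

end Pool.Agent.V11127.Dj
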